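import Pool.Agent.V8H61.PM.Gen

set_option autoImplicit false
set_option maxSynthPendingDepth 3
set_option linter.unusedSectionVars false

/-!
# Generic members of a linear family of functions have isolated critical points
-/

namespace Pool.Agent.V8H61.PM

open MeasureTheory Set Filter Topology Metric Module
open scoped ContDiff

variable {C P : Type*}
  [NormedAddCommGroup C] [NormedSpace ℝ C] [FiniteDimensional ℝ C]
  [NormedAddCommGroup P] [NormedSpace ℝ P] [FiniteDimensional ℝ P]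
  [MeasurableSpace C] [BorelSpace C]

theorem three_ne : (3 : WithTop ℕ∞) ≠ (∞ : WithTop ℕ∞) := by norm_cast

theorem finrank_dual' (E : Type*) [NormedAddCommGroup E] [NormedSpace ℝ E]
    [FiniteDimensional ℝ E] : finrank ℝ (E →L[ℝ] ℝ) = finrank ℝ E := by
  rw [← (LinearMap.toContinuousLinearMap (𝕜 := ℝ) (E := E) (F' := ℝ)).finrank_eq]
  exact Subspace.dual_finrank_eq

/-- the flip `(P → P → C → ℝ) → (C → P → P → ℝ)` -/
noncomputable def tw (C P : Type*) [NormedAddCommGroup C] [NormedSpace ℝ C]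
    [NormedAddCommGroup P] [NormedSpace ℝ P] :
    (P →L[ℝ] P →L[ℝ] C →L[ℝ] ℝ) →L[ℝ] (C →L[ℝ] P →L[ℝ] P →L[ℝ] ℝ) :=
  ((ContinuousLinearMap.flipₗᵢ ℝ P C (P →L[ℝ] ℝ)).toContinuousLinearEquiv :
    (P →L[ℝ] C →L[ℝ] P →L[ℝ] ℝ) →L[ℝ] (C →L[ℝ] P →L[ℝ] P →L[ℝ] ℝ)).comp
  (ContinuousLinearMap.compL ℝ P (P →L[ℝ] C →L[ℝ] ℝ) (C →L[ℝ] P →L[ℝ] ℝ)
    ((ContinuousLinearMap.flipₗᵢ ℝ P C ℝ).toContinuousLinearEquiv :
      (P →L[ℝ] C →L[ℝ] ℝ) →L[ℝ] (C →L[ℝ] P →L[ℝ] ℝ)))

theorem tw_apply (T : P →L[ℝ] P →L[ℝ] C →L[ℝ] ℝ) (c : C) (v w : P) :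
    tw C P T c v w = T v w c := rfl

theorem fd_one {g : P → (C →L[ℝ] ℝ)} {h : P → ℝ} {u : P} (hg : DifferentiableAt ℝ g u)
    (hh : DifferentiableAt ℝ h u) (c : C) :
    fderiv ℝ (fun v => h v + g v c) u = fderiv ℝ h u + (fderiv ℝ g u).flip c := by
  have h1 := hg.hasFDerivAt.clm_apply (hasFDerivAt_const c u)
  have h2 := (hh.hasFDerivAt.add h1).fderiv
  have h3 : fderiv ℝ (fun v => h v + g v c) u = _ := h2
  rw [h3]
  ext w
  simp

theorem fd_two {g : P → (C →L[ℝ] ℝ)} {h : P → ℝ} {u : P} (hg : ContDiffAt ℝ 3 g u)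
    (hh : ContDiffAt ℝ 3 h u) (c : C) :
    fderiv ℝ (fderiv ℝ (fun v => h v + g v c)) u =
      fderiv ℝ (fderiv ℝ h) u + tw C P (fderiv ℝ (fderiv ℝ g) u) c := by
  have hgd : ∀ᶠ v in 𝓝 u, DifferentiableAt ℝ g v :=
    (hg.eventually three_ne).mono fun v hv => hv.differentiableAt (by simp)
  have hhd : ∀ᶠ v in 𝓝 u, DifferentiableAt ℝ h v :=
    (hh.eventually three_ne).mono fun v hv => hv.differentiableAt (by simp)
  have e : fderiv ℝ (fun v => h v + g v c) =ᶠ[𝓝 u]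
      fun v => fderiv ℝ h v + (fderiv ℝ g v).flip c := by
    filter_upwards [hgd, hhd] with v h1 h2
    exact fd_one h1 h2 c
  rw [e.fderiv_eq]
  have hg2 : DifferentiableAt ℝ (fderiv ℝ g) u :=
    (hg.fderiv_right (m := 1) (by norm_num)).differentiableAt (by simp)
  have hh2 : DifferentiableAt ℝ (fderiv ℝ h) u :=
    (hh.fderiv_right (m := 1) (by norm_num)).differentiableAt (by simp)
  set fl : (P →L[ℝ] C →L[ℝ] ℝ) →L[ℝ] (C →L[ℝ] P →L[ℝ] ℝ) :=
    ((ContinuousLinearMap.flipₗᵢ ℝ P C ℝ).toContinuousLinearEquiv :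
      (P →L[ℝ] C →L[ℝ] ℝ) →L[ℝ] (C →L[ℝ] P →L[ℝ] ℝ)) with hfl
  have h1 : HasFDerivAt (fun v => (fderiv ℝ g v).flip) (fl.comp (fderiv ℝ (fderiv ℝ g) u)) u :=
    fl.hasFDerivAt.comp u hg2.hasFDerivAt
  have h2 := h1.clm_apply (hasFDerivAt_const c u)
  have h3 := (hh2.hasFDerivAt.add h2).fderiv
  have h4 : fderiv ℝ (fun v => fderiv ℝ h v + (fderiv ℝ g v).flip c) u = _ := h3
  rw [h4]
  ext v w
  simp [tw_apply, hfl]

/-- for almost every member of the family the critical points in `P0` near `0` are isolated -/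
theorem gen_crit (μ : Measure C) [μ.IsAddHaarMeasure] (P0 : Submodule ℝ P)
    {g : P → (C →L[ℝ] ℝ)} (hg : ContDiffAt ℝ 3 g 0) {h : P → ℝ} (hh : ContDiffAt ℝ 3 h 0)
    (S1 : ∀ ℓ : P0 →L[ℝ] ℝ, ∃ c : C, ∀ p : P0, fderiv ℝ (fun v => g v c) 0 p = ℓ p)
    (S2 : ∃ c : C, (∀ p ∈ P0, fderiv ℝ (fun v => g v c) 0 p = 0) ∧
      ∀ v, fderiv ℝ (fderiv ℝ (fun v => g v c)) 0 v = 0 → v = 0) :
    ∃ r, 0 < r ∧ ∀ᵐ c ∂μ, ∀ u ∈ P0, ‖u‖ < r → fderiv ℝ (fun v => h v + g v c) u = 0 →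
      ∀ᶠ v in 𝓝[≠] u, fderiv ℝ (fun v => h v + g v c) v ≠ 0 := by
  classical
  have hgh : ∀ᶠ v in 𝓝 (0 : P), ContDiffAt ℝ 3 g v ∧ ContDiffAt ℝ 3 h v :=
    (hg.eventually three_ne).and (hh.eventually three_ne)
  obtain ⟨r, hr, hr'⟩ := Metric.eventually_nhds_iff_ball.1 hgh
  set ι := P0.subtypeL with hι
  have hιm : ∀ u ∈ ball (0 : P0) r, (u : P) ∈ ball (0 : P) r := fun u hu => by
    rw [mem_ball_zero_iff] at hu ⊢
    exact hu
  set j : (P →L[ℝ] ℝ) ≃L[ℝ] P := ContinuousLinearEquiv.ofFinrankEq (finrank_dual' P) with hj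
  -- the data
  set rs : (P →L[ℝ] ℝ) →L[ℝ] (P0 →L[ℝ] ℝ) := (ContinuousLinearMap.compL ℝ P0 P ℝ).flip ι with hrs
  set fl : (P →L[ℝ] C →L[ℝ] ℝ) →L[ℝ] (C →L[ℝ] P →L[ℝ] ℝ) :=
    ((ContinuousLinearMap.flipₗᵢ ℝ P C ℝ).toContinuousLinearEquiv :
      (P →L[ℝ] C →L[ℝ] ℝ) →L[ℝ] (C →L[ℝ] P →L[ℝ] ℝ)) with hfl
  set a : P0 → C →L[ℝ] (P0 →L[ℝ] ℝ) := fun u => rs.comp (fl (fderiv ℝ g u)) with ha
  set α : P0 → (P0 →L[ℝ] ℝ) := fun u => rs (fderiv ℝ h u) with hα
  set jc := ContinuousLinearMap.compL ℝ P (P →L[ℝ] ℝ) P (j : (P →L[ℝ] ℝ) →L[ℝ] P) with hjc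
  set β : P0 → P →L[ℝ] P := fun u => jc (fderiv ℝ (fderiv ℝ h) u) with hβ
  set b : P0 → C →L[ℝ] (P →L[ℝ] P) := fun u => jc.comp (tw C P (fderiv ℝ (fderiv ℝ g) u)) with hb
  have d1 : ∀ u ∈ ball (0 : P0) r, DifferentiableAt ℝ (fun u : P0 => fderiv ℝ g (u : P)) u := by
    intro u hu
    have h1 := (hr' _ (hιm u hu)).1
    have h2 : DifferentiableAt ℝ (fderiv ℝ g) (u : P) :=
      (h1.fderiv_right (m := 1) (by norm_num)).differentiableAt (by simp)
    exact DifferentiableAt.comp (f := fun u : P0 => (u : P)) u h2 ι.differentiableAt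
  have d2 : ∀ u ∈ ball (0 : P0) r, DifferentiableAt ℝ (fun u : P0 => fderiv ℝ h (u : P)) u := by
    intro u hu
    have h1 := (hr' _ (hιm u hu)).2
    have h2 : DifferentiableAt ℝ (fderiv ℝ h) (u : P) :=
      (h1.fderiv_right (m := 1) (by norm_num)).differentiableAt (by simp)
    exact DifferentiableAt.comp (f := fun u : P0 => (u : P)) u h2 ι.differentiableAt
  have d3 : ∀ u ∈ ball (0 : P0) r,
      ContinuousAt (fun u : P0 => fderiv ℝ (fderiv ℝ g) (u : P)) u := by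
    intro u hu
    have h1 := (hr' _ (hιm u hu)).1
    have h2 : ContinuousAt (fderiv ℝ (fderiv ℝ g)) (u : P) :=
      ((h1.fderiv_right (m := 1) (by norm_num)).fderiv_right (m := 0) (by norm_num)).continuousAt
    exact ContinuousAt.comp (f := fun u : P0 => (u : P)) h2 ι.continuous.continuousAt
  have d4 : ∀ u ∈ ball (0 : P0) r,
      ContinuousAt (fun u : P0 => fderiv ℝ (fderiv ℝ h) (u : P)) u := by
    intro u hu
    have h1 := (hr' _ (hιm u hu)).2
    have h2 : ContinuousAt (fderiv ℝ (fderiv ℝ h)) (u : P) :=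
      ((h1.fderiv_right (m := 1) (by norm_num)).fderiv_right (m := 0) (by norm_num)).continuousAt
    exact ContinuousAt.comp (f := fun u : P0 => (u : P)) h2 ι.continuous.continuousAt
  have had : DifferentiableOn ℝ a (ball 0 r) := fun u hu =>
    ((differentiableAt_const rs).clm_comp
      (fl.differentiableAt.comp u (d1 u hu))).differentiableWithinAt
  have hαd : DifferentiableOn ℝ α (ball 0 r) := fun u hu =>
    (rs.differentiableAt.comp u (d2 u hu)).differentiableWithinAt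
  have hβc : ContinuousOn β (ball 0 r) := fun u hu =>
    (jc.continuous.continuousAt.comp (d4 u hu)).continuousWithinAt
  have hbc : ContinuousOn b (ball 0 r) := fun u hu =>
    (continuousAt_const.clm_comp
      ((tw C P).continuous.continuousAt.comp (d3 u hu))).continuousWithinAt
  have h0g : DifferentiableAt ℝ g 0 := hg.differentiableAt (by simp)
  have hone : ∀ c, fderiv ℝ (fun v => g v c) 0 = (fderiv ℝ g 0).flip c := by
    intro c
    have h1 := fd_one (h := fun _ => (0:ℝ)) h0g (differentiableAt_const _) c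
    simpa using h1
  have htwo : ∀ c, fderiv ℝ (fderiv ℝ (fun v => g v c)) 0 =
      tw C P (fderiv ℝ (fderiv ℝ g) 0) c := by
    intro c
    have h1 := fd_two (h := fun _ => (0:ℝ)) hg contDiffAt_const c
    simpa using h1
  have hsurj : Function.Surjective (a 0) := by
    intro ℓ
    obtain ⟨c, hc⟩ := S1 ℓ
    refine ⟨c, ?_⟩
    ext p
    have := hc p
    rw [hone] at this
    exact this
  obtain ⟨cs, hcs1, hcs2⟩ := S2
  have hcs1' : a 0 cs = 0 := by
    ext p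
    have := hcs1 p p.2
    rw [hone] at this
    exact this
  have unit_of : ∀ B : P →L[ℝ] (P →L[ℝ] ℝ), (∀ v, B v = 0 → v = 0) → IsUnit (jc B) := by
    intro B hB
    have hinj : Function.Injective ((jc B : P →L[ℝ] P) : P →ₗ[ℝ] P) := by
      rw [← LinearMap.ker_eq_bot, LinearMap.ker_eq_bot']
      intro v hv
      apply hB
      have : j (B v) = 0 := hv
      simpa using this
    have hu : IsUnit ((jc B : P →L[ℝ] P) : P →ₗ[ℝ] P) :=
      (Module.End.isUnit_iff _).2 ⟨hinj, LinearMap.injective_iff_surjective.1 hinj⟩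
    exact hu.map (Module.End.toContinuousLinearMap (𝕜 := ℝ) P)
  have hcs2' : IsUnit (b 0 cs) := by
    apply unit_of
    intro v hv
    apply hcs2
    rw [htwo]
    exact hv
  obtain ⟨r', hr'0, hr'r, hae⟩ := abs_gen μ (finrank_dual' P0) hr had hsurj hαd hβc hbc hcs1' hcs2'
  refine ⟨r', hr'0, ?_⟩
  filter_upwards [hae] with c hc u hu hur hcrit
  have hub : (⟨u, hu⟩ : P0) ∈ ball (0 : P0) r' := by
    rw [mem_ball_zero_iff]
    exact hur
  have hur2 : u ∈ ball (0 : P) r := by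
    rw [mem_ball_zero_iff]
    exact hur.trans_le hr'r
  obtain ⟨hgu, hhu⟩ := hr' u hur2
  have h1 := hc ⟨u, hu⟩ hub (by
    rw [fd_one (hgu.differentiableAt (by simp)) (hhu.differentiableAt (by simp))] at hcrit
    have h2 : rs (fderiv ℝ h u + (fderiv ℝ g u).flip c) = 0 := by rw [hcrit, map_zero]
    rw [map_add] at h2
    exact h2)
  have h2 : IsUnit (jc (fderiv ℝ (fderiv ℝ (fun v => h v + g v c)) u)) := by
    rw [fd_two hgu hhu, map_add]
    exact h1
  have hcd : ContDiffAt ℝ 3 (fun v => h v + g v c) u :=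
    hhu.add (hgu.clm_apply contDiffAt_const)
  have hder : HasFDerivAt (fderiv ℝ (fun v => h v + g v c))
      (fderiv ℝ (fderiv ℝ (fun v => h v + g v c)) u) u :=
    ((hcd.fderiv_right (m := 1) (by norm_num)).differentiableAt (by simp)).hasFDerivAt
  set B := fderiv ℝ (fderiv ℝ (fun v => h v + g v c)) u with hB
  have hker : LinearMap.ker (B : P →ₗ[ℝ] (P →L[ℝ] ℝ)) = ⊥ := by
    rw [LinearMap.ker_eq_bot']
    intro v hv
    obtain ⟨q, hq⟩ := h2
    have h3 : (q : P →L[ℝ] P) v = 0 := by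
      rw [hq]
      show j (B v) = 0
      have : B v = 0 := hv
      rw [this, map_zero]
    have h4 : ((q⁻¹ : (P →L[ℝ] P)ˣ) : P →L[ℝ] P) ((q : P →L[ℝ] P) v) = v := by
      have := congrArg (fun T : P →L[ℝ] P => T v) (Units.inv_mul q)
      exact this
    rw [← h4, h3, map_zero]
  obtain ⟨K, hK0, hK⟩ := LinearMap.exists_antilipschitzWith (B : P →ₗ[ℝ] (P →L[ℝ] ℝ)) hker
  exact hder.eventually_ne ⟨K, hK⟩

end Pool.Agent.V8H61.PM
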