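import Pool.Agent.V8H61.PM.Crit

set_option autoImplicit false
set_option linter.unusedSectionVars false

/-!
# Averages of polynomials and their 2-jets
-/

namespace Pool.Agent.V8H61.PM

open Set Filter Topology Metric Module Function
open scoped ContDiff

/-! ### Polynomials -/

variable {m : ℕ}

/-- the coordinates and the constant `1` -/
noncomputable def xt (z : EuclideanSpace ℝ (Fin m)) (o : Option (Fin m)) : ℝ :=
  o.elim 1 (fun i => z i)

noncomputable def aff (β : Option (Fin m) → ℝ) (z : EuclideanSpace ℝ (Fin m)) : ℝ :=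
  ∑ o, β o * xt z o

noncomputable def mono {D : ℕ} (i : Fin D → Option (Fin m)) (z : EuclideanSpace ℝ (Fin m)) : ℝ :=
  ∏ a, xt z (i a)

/-- polynomials of degree at most `D` -/
def Rep (D : ℕ) (f : EuclideanSpace ℝ (Fin m) → ℝ) : Prop :=
  ∃ c : (Fin D → Option (Fin m)) → ℝ, ∀ z, f z = ∑ i, c i * mono i z

theorem rep_one : Rep (m := m) 0 (fun _ => 1) := by
  refine ⟨fun _ => 1, fun z => ?_⟩
  simp [mono]

theorem rep_congr {D : ℕ} {f f' : EuclideanSpace ℝ (Fin m) → ℝ} (h : ∀ z, f' z = f z)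
    (hf : Rep D f) : Rep D f' := by
  obtain ⟨c, hc⟩ := hf
  exact ⟨c, fun z => (h z).trans (hc z)⟩

theorem rep_mul {D : ℕ} {f : EuclideanSpace ℝ (Fin m) → ℝ} (hf : Rep D f)
    (β : Option (Fin m) → ℝ) : Rep (D + 1) (fun z => aff β z * f z) := by
  obtain ⟨c, hc⟩ := hf
  refine ⟨fun i => β (i 0) * c (Fin.tail i), fun z => ?_⟩
  have e : ∑ i : Fin (D + 1) → Option (Fin m), β (i 0) * c (Fin.tail i) * mono i z =
      ∑ p : Option (Fin m) × (Fin D → Option (Fin m)), β p.1 * c p.2 * (xt z p.1 * mono p.2 z) := by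
    rw [← (Fin.consEquiv (fun _ : Fin (D + 1) => Option (Fin m))).sum_comp]
    apply Finset.sum_congr rfl
    intro p _
    unfold mono
    rw [Fin.prod_univ_succ]
    simp [Fin.consEquiv, Fin.tail]
  show aff β z * f z = _
  rw [e, Fintype.sum_prod_type, hc]
  unfold aff
  rw [Finset.sum_mul_sum]
  apply Finset.sum_congr rfl
  intro o _
  apply Finset.sum_congr rfl
  intro i _
  ring

theorem aff_one (z : EuclideanSpace ℝ (Fin m)) :
    aff (fun o => if o = none then 1 else 0) z = 1 := by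
  unfold aff
  rw [Fintype.sum_option]
  simp [xt]

theorem rep_succ {D : ℕ} {f : EuclideanSpace ℝ (Fin m) → ℝ} (hf : Rep D f) : Rep (D + 1) f := by
  have h := rep_mul hf (fun o => if o = none then 1 else 0)
  obtain ⟨c, hc⟩ := h
  refine ⟨c, fun z => ?_⟩
  rw [← hc z]
  show f z = aff _ z * f z
  rw [aff_one, one_mul]

theorem rep_le {D D' : ℕ} (h : D ≤ D') {f : EuclideanSpace ℝ (Fin m) → ℝ} (hf : Rep D f) :
    Rep D' f := by
  induction h with
  | refl => exact hf
  | step _ ih => exact rep_succ ih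

theorem rep_sum {D : ℕ} {ι : Type*} (s : Finset ι) {f : ι → EuclideanSpace ℝ (Fin m) → ℝ}
    (hf : ∀ i ∈ s, Rep D (f i)) : Rep D (fun z => ∑ i ∈ s, f i z) := by
  classical
  choose! c hc using hf
  refine ⟨fun j => ∑ i ∈ s, c i j, fun z => ?_⟩
  show ∑ i ∈ s, f i z = _
  rw [Finset.sum_congr rfl fun i hi => hc i hi z, Finset.sum_comm]
  apply Finset.sum_congr rfl
  intro j _
  rw [Finset.sum_mul]

/-- the coordinate function `z i - t` -/
noncomputable def cf (i : Fin m) (t : ℝ) (o : Option (Fin m)) : ℝ :=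
  o.elim (-t) (fun j => if j = i then 1 else 0)

theorem aff_cf (i : Fin m) (t : ℝ) (z : EuclideanSpace ℝ (Fin m)) : aff (cf i t) z = z i - t := by
  unfold aff
  rw [Fintype.sum_option]
  simp [xt, cf]
  ring

theorem aff_lin (b : Fin m → ℝ) (z0 z : EuclideanSpace ℝ (Fin m)) :
    aff (fun o => o.elim (-∑ i, b i * z0 i) b) z = ∑ i, b i * (z i - z0 i) := by
  unfold aff
  rw [Fintype.sum_option]
  simp only [Option.elim, xt, mul_one]
  rw [← sub_eq_neg_add, ← Finset.sum_sub_distrib]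
  apply Finset.sum_congr rfl
  intro i _
  ring

/-- the coordinate functional -/
noncomputable def pr (i : Fin m) : EuclideanSpace ℝ (Fin m) →L[ℝ] ℝ := EuclideanSpace.proj i

theorem xt_cd (o : Option (Fin m)) :
    ContDiff ℝ 3 (fun z : EuclideanSpace ℝ (Fin m) => xt z o) := by
  cases o with
  | none => exact contDiff_const
  | some i => exact (pr i).contDiff

theorem mono_cd {D : ℕ} (i : Fin D → Option (Fin m)) :
    ContDiff ℝ 3 (fun z : EuclideanSpace ℝ (Fin m) => mono i z) :=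
  contDiff_prod fun a _ => xt_cd (i a)

theorem aff_cd (β : Option (Fin m) → ℝ) :
    ContDiff ℝ 3 (fun z : EuclideanSpace ℝ (Fin m) => aff β z) :=
  ContDiff.sum fun o _ => contDiff_const.mul (xt_cd o)

/-! ### Jets -/

variable {P : Type*} [NormedAddCommGroup P] [NormedSpace ℝ P] [FiniteDimensional ℝ P]

theorem sq_jet {A W : P → ℝ} (hA : ContDiffAt ℝ 3 A 0) (hW : ContDiffAt ℝ 3 W 0) (h0 : A 0 = 0) :
    fderiv ℝ (fun v => A v ^ 2 * W v) 0 = 0 ∧
      ∀ u u', fderiv ℝ (fderiv ℝ (fun v => A v ^ 2 * W v)) 0 u u' =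
        2 * W 0 * (fderiv ℝ A 0 u) * (fderiv ℝ A 0 u') := by
  have hev : ∀ᶠ v in 𝓝 (0 : P), DifferentiableAt ℝ A v ∧ DifferentiableAt ℝ W v :=
    ((hA.eventually three_ne).and (hW.eventually three_ne)).mono fun v hv =>
      ⟨hv.1.differentiableAt (by norm_num), hv.2.differentiableAt (by norm_num)⟩
  have e : ∀ v, DifferentiableAt ℝ A v → DifferentiableAt ℝ W v →
      fderiv ℝ (fun v => A v ^ 2 * W v) v =
        (2 * A v * W v) • fderiv ℝ A v + (A v ^ 2) • fderiv ℝ W v := by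
    intro v h1 h2
    have h3 := (h1.hasFDerivAt.pow 2).mul h2.hasFDerivAt
    have h4 : fderiv ℝ (fun v => A v ^ 2 * W v) v = _ := h3.fderiv
    rw [h4]
    ext u
    simp
    ring
  constructor
  · have h1 := hev.self_of_nhds
    rw [e 0 h1.1 h1.2, h0]
    simp
  · intro u u'
    have e2 : fderiv ℝ (fun v => A v ^ 2 * W v) =ᶠ[𝓝 0]
        fun v => (2 * A v * W v) • fderiv ℝ A v + (A v ^ 2) • fderiv ℝ W v := by
      filter_upwards [hev] with v hv
      exact e v hv.1 hv.2
    rw [e2.fderiv_eq]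
    have h1 := hev.self_of_nhds
    have hA2 : DifferentiableAt ℝ (fderiv ℝ A) 0 :=
      (hA.fderiv_right (m := 1) (by norm_num)).differentiableAt (by simp)
    have hW2 : DifferentiableAt ℝ (fderiv ℝ W) 0 :=
      (hW.fderiv_right (m := 1) (by norm_num)).differentiableAt (by simp)
    have h3 := ((((hasFDerivAt_const (2:ℝ) (0:P)).mul h1.1.hasFDerivAt).mul
      h1.2.hasFDerivAt).smul hA2.hasFDerivAt).add
      ((h1.1.hasFDerivAt.pow 2).smul hW2.hasFDerivAt)
    have h4 : fderiv ℝ (fun v => (2 * A v * W v) • fderiv ℝ A v + (A v ^ 2) • fderiv ℝ W v) 0 =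
      _ := h3.fderiv
    rw [h4]
    simp [h0]
    left
    ring

theorem sum_jet {ι : Type*} (s : Finset ι) {F : ι → P → ℝ}
    (hF : ∀ k ∈ s, ContDiffAt ℝ 3 (F k) 0) :
    fderiv ℝ (fun v => ∑ k ∈ s, F k v) 0 = ∑ k ∈ s, fderiv ℝ (F k) 0 ∧
      fderiv ℝ (fderiv ℝ (fun v => ∑ k ∈ s, F k v)) 0 =
        ∑ k ∈ s, fderiv ℝ (fderiv ℝ (F k)) 0 := by
  have hev : ∀ᶠ v in 𝓝 (0 : P), ∀ k ∈ s, DifferentiableAt ℝ (F k) v := by
    rw [Filter.eventually_all_finset]
    intro k hk
    exact ((hF k hk).eventually three_ne).mono fun v hv => hv.differentiableAt (by norm_num)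
  have e : ∀ v, (∀ k ∈ s, DifferentiableAt ℝ (F k) v) →
      fderiv ℝ (fun v => ∑ k ∈ s, F k v) v = ∑ k ∈ s, fderiv ℝ (F k) v := fun v hv =>
    fderiv_fun_sum hv
  refine ⟨e 0 hev.self_of_nhds, ?_⟩
  have e2 : fderiv ℝ (fun v => ∑ k ∈ s, F k v) =ᶠ[𝓝 0] fun v => ∑ k ∈ s, fderiv ℝ (F k) v := by
    filter_upwards [hev] with v hv
    exact e v hv
  rw [e2.fderiv_eq]
  exact fderiv_fun_sum fun k hk =>
    ((hF k hk).fderiv_right (m := 1) (by norm_num)).differentiableAt (by simp)

/-! ### The family -/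

variable (E : ℕ → P → EuclideanSpace ℝ (Fin m)) (q : ℕ)

/-- the value of the family -/
noncomputable def gf (D : ℕ) (v : P) : ((Fin D → Option (Fin m)) → ℝ) →L[ℝ] ℝ :=
  ∑ i, (∑ k ∈ Finset.range q, mono i (E k v)) • ContinuousLinearMap.proj (R := ℝ) i

theorem gf_apply (D : ℕ) (v : P) (c : (Fin D → Option (Fin m)) → ℝ) :
    gf E q D v c = ∑ i, c i * ∑ k ∈ Finset.range q, mono i (E k v) := by
  unfold gf
  simp [mul_comm]

theorem gf_rep {D : ℕ} {f : EuclideanSpace ℝ (Fin m) → ℝ} {c : (Fin D → Option (Fin m)) → ℝ}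
    (hc : ∀ z, f z = ∑ i, c i * mono i z) (v : P) :
    gf E q D v c = ∑ k ∈ Finset.range q, f (E k v) := by
  rw [gf_apply, Finset.sum_congr rfl fun k _ => hc (E k v), Finset.sum_comm]
  apply Finset.sum_congr rfl
  intro i _
  rw [Finset.mul_sum]

variable {E q}

theorem gf_cd (D : ℕ) (hE : ∀ k < q, ContDiffAt ℝ 3 (E k) 0) : ContDiffAt ℝ 3 (gf E q D) 0 := by
  unfold gf
  refine ContDiffAt.sum fun i _ => ?_
  have h1 : ContDiffAt ℝ 3 (fun v => ∑ k ∈ Finset.range q, mono i (E k v)) 0 :=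
    ContDiffAt.sum fun k hk => (mono_cd i).contDiffAt.comp 0 (hE k (Finset.mem_range.1 hk))
  exact h1.smul contDiffAt_const

/-- the factor which vanishes to the third order at the other points of the orbit -/
theorem exists_w (E : ℕ → P → EuclideanSpace ℝ (Fin m)) (q : ℕ) :
    ∃ w : EuclideanSpace ℝ (Fin m) → ℝ, Rep (3 * q) w ∧ ContDiff ℝ 3 w ∧ w (E 0 0) ≠ 0 ∧
      ∀ k < q, E k 0 ≠ E 0 0 → ∃ (i : Fin m) (w' : EuclideanSpace ℝ (Fin m) → ℝ),
        ContDiff ℝ 3 w' ∧ ∀ z, w z = (z i - E k 0 i) ^ 2 * ((z i - E k 0 i) * w' z) := by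
  classical
  have hne : ∀ k, E k 0 ≠ E 0 0 → ∃ i : Fin m, E k 0 i ≠ E 0 0 i := by
    intro k h
    by_contra hcon
    push Not at hcon
    exact h (PiLp.ext hcon)
  choose i hi using hne
  set lam : ℕ → EuclideanSpace ℝ (Fin m) → ℝ := fun k z =>
    if h : E k 0 ≠ E 0 0 then (z (i k h) - E k 0 (i k h)) ^ 3 else 1 with hlam
  have hlcd : ∀ k, ContDiff ℝ 3 (lam k) := by
    intro k
    rw [hlam]
    by_cases h : E k 0 ≠ E 0 0
    · simp only [dif_pos h]
      exact (((pr (i k h)).contDiff).sub contDiff_const).pow 3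
    · simp only [dif_neg h]
      exact contDiff_const
  refine ⟨fun z => ∏ k ∈ Finset.range q, lam k z, ?_, contDiff_prod fun k _ => hlcd k, ?_, ?_⟩
  · clear hlcd
    induction q with
    | zero => simpa using rep_one
    | succ q ih =>
      have h1 : Rep (3 * (q + 1)) (fun z => lam q z * ∏ k ∈ Finset.range q, lam k z) := by
        by_cases h : E q 0 ≠ E 0 0
        · have hl : ∀ z, lam q z = (z (i q h) - E q 0 (i q h)) ^ 3 := fun z => dif_pos h
          have h2 := rep_mul (rep_mul (rep_mul ih (cf (i q h) (E q 0 (i q h))))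
            (cf (i q h) (E q 0 (i q h)))) (cf (i q h) (E q 0 (i q h)))
          refine rep_congr (fun z => ?_) h2
          rw [hl, aff_cf]
          ring
        · have hl : ∀ z, lam q z = 1 := fun z => dif_neg h
          refine rep_congr (fun z => ?_) (rep_le (by omega) ih)
          rw [hl, one_mul]
      refine rep_congr (fun z => ?_) h1
      rw [Finset.prod_range_succ, mul_comm]
  · rw [Finset.prod_ne_zero_iff]
    intro k _
    rw [hlam]
    by_cases h : E k 0 ≠ E 0 0
    · simp only [dif_pos h]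
      exact pow_ne_zero _ (sub_ne_zero.2 (hi k h).symm)
    · simp only [dif_neg h]
      exact one_ne_zero
  · intro k hk h
    refine ⟨i k h, fun z => ∏ l ∈ (Finset.range q).erase k, lam l z,
      contDiff_prod fun l _ => hlcd l, fun z => ?_⟩
    show ∏ k ∈ Finset.range q, lam k z = _
    rw [← Finset.mul_prod_erase _ _ (Finset.mem_range.2 hk)]
    have : lam k z = (z (i k h) - E k 0 (i k h)) ^ 3 := by
      rw [hlam]; simp only [dif_pos h]
    rw [this]
    ring

theorem coord_cd {F : P → EuclideanSpace ℝ (Fin m)} (hF : ContDiffAt ℝ 3 F 0) (i : Fin m)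
    (t : ℝ) : ContDiffAt ℝ 3 (fun v => F v i - t) 0 :=
  ((pr i).contDiff.contDiffAt.comp 0 hF).sub contDiffAt_const

theorem coord_fd {F : P → EuclideanSpace ℝ (Fin m)} (hF : ContDiffAt ℝ 3 F 0) (i : Fin m)
    (t : ℝ) (u : P) : fderiv ℝ (fun v => F v i - t) 0 u = (fderiv ℝ F 0 u) i := by
  have h1 := ((pr i).hasFDerivAt.comp 0
    (hF.differentiableAt (by norm_num)).hasFDerivAt).sub_const t
  have h2 : fderiv ℝ (fun v => F v i - t) 0 = _ := h1.fderiv
  rw [h2]
  rfl

/-- the other points of the orbit do not contribute -/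
theorem other_jet {w : EuclideanSpace ℝ (Fin m) → ℝ} {k : ℕ} (hEk : ContDiffAt ℝ 3 (E k) 0)
    (hw : ∃ (i : Fin m) (w' : EuclideanSpace ℝ (Fin m) → ℝ),
        ContDiff ℝ 3 w' ∧ ∀ z, w z = (z i - E k 0 i) ^ 2 * ((z i - E k 0 i) * w' z))
    {p : EuclideanSpace ℝ (Fin m) → ℝ} (hp : ContDiff ℝ 3 p) :
    fderiv ℝ (fun v => p (E k v) * w (E k v)) 0 = 0 ∧
      fderiv ℝ (fderiv ℝ (fun v => p (E k v) * w (E k v))) 0 = 0 := by
  obtain ⟨i, w', hw', hww⟩ := hw
  have e : (fun v => p (E k v) * w (E k v)) = fun v => (E k v i - E k 0 i) ^ 2 *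
      ((E k v i - E k 0 i) * (w' (E k v) * p (E k v))) := by
    funext v
    rw [hww]
    ring
  have hA := coord_cd hEk i (E k 0 i)
  have hW : ContDiffAt ℝ 3 (fun v => (E k v i - E k 0 i) * (w' (E k v) * p (E k v))) 0 :=
    hA.mul ((hw'.contDiffAt.comp 0 hEk).mul (hp.contDiffAt.comp 0 hEk))
  have h := sq_jet hA hW (sub_self _)
  rw [e]
  refine ⟨h.1, ?_⟩
  ext u u'
  rw [h.2 u u']
  simp

theorem family_S1 (hq : 1 ≤ q) (hE : ∀ k < q, ContDiffAt ℝ 3 (E k) 0) (P0 : Submodule ℝ P)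
    (H : ∀ k < q, E k 0 = E 0 0 → ∀ p ∈ P0, fderiv ℝ (E k) 0 p = fderiv ℝ (E 0) 0 p)
    (inj : Injective (fderiv ℝ (E 0) 0)) (ℓ : P0 →L[ℝ] ℝ) :
    ∃ c : (Fin (3 * q + 2) → Option (Fin m)) → ℝ, ∀ p : P0,
      fderiv ℝ (fun v => gf E q (3 * q + 2) v c) 0 p = ℓ p := by
  classical
  obtain ⟨w, hwr, hwc, hw0, hwk⟩ := exists_w E q
  -- the functional on the range
  set J : P0 →ₗ[ℝ] EuclideanSpace ℝ (Fin m) :=
    (((fderiv ℝ (E 0) 0).comp P0.subtypeL : P0 →L[ℝ] EuclideanSpace ℝ (Fin m)) :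
      P0 →ₗ[ℝ] EuclideanSpace ℝ (Fin m)) with hJ
  have hJinj : LinearMap.ker J = ⊥ := by
    rw [LinearMap.ker_eq_bot]
    intro a b hab
    exact Subtype.ext (inj hab)
  obtain ⟨Jl, hJl⟩ := J.exists_leftInverse_of_injective hJinj
  set Kf : Finset ℕ := (Finset.range q).filter fun k => E k 0 = E 0 0 with hKf
  have hKpos : (0:ℝ) < Kf.card := by
    have : 0 ∈ Kf := by
      rw [hKf, Finset.mem_filter, Finset.mem_range]
      exact ⟨hq, rfl⟩
    exact_mod_cast Finset.card_pos.2 ⟨0, this⟩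
  set κ : ℝ := (Kf.card * w (E 0 0))⁻¹ with hκ
  set b : Fin m → ℝ := fun i => κ * ℓ (Jl (EuclideanSpace.single i 1)) with hb
  set A : EuclideanSpace ℝ (Fin m) → ℝ := aff (fun o => o.elim (-∑ i, b i * E 0 0 i) b) with hA
  have hrep : Rep (3 * q + 2) (fun z => A z * w z) := rep_succ (rep_mul hwr _)
  obtain ⟨c, hc⟩ := hrep
  refine ⟨c, fun p => ?_⟩
  have e1 : (fun v => gf E q (3 * q + 2) v c) =
      fun v => ∑ k ∈ Finset.range q, A (E k v) * w (E k v) := funext fun v => gf_rep E q hc v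
  have hcd : ∀ k ∈ Finset.range q, ContDiffAt ℝ 3 (fun v => A (E k v) * w (E k v)) 0 := by
    intro k hk
    have hk' := hE k (Finset.mem_range.1 hk)
    exact ((aff_cd _).contDiffAt.comp 0 hk').mul (hwc.contDiffAt.comp 0 hk')
  rw [e1, (sum_jet _ hcd).1, ContinuousLinearMap.sum_apply]
  have hterm : ∀ k ∈ Finset.range q, fderiv ℝ (fun v => A (E k v) * w (E k v)) 0 (p : P) =
      if E k 0 = E 0 0 then w (E 0 0) * (κ * ℓ p) else 0 := by
    intro k hk
    rw [Finset.mem_range] at hk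
    have hEk := hE k hk
    by_cases h : E k 0 = E 0 0
    · rw [if_pos h]
      have hdA : HasFDerivAt (fun v => A (E k v)) (∑ i, b i •
          ((pr i).comp
            (fderiv ℝ (E k) 0))) 0 := by
        have e2 : (fun v => A (E k v)) = fun v => ∑ i, b i * (E k v i - E 0 0 i) := by
          funext v
          rw [hA, aff_lin]
        rw [e2]
        apply HasFDerivAt.fun_sum
        intro i _
        exact (((pr i).hasFDerivAt.comp 0
          (hEk.differentiableAt (by norm_num)).hasFDerivAt).sub_const (E 0 0 i)).const_mul (b i)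
      have hdw : DifferentiableAt ℝ (fun v => w (E k v)) 0 :=
        (hwc.contDiffAt.comp 0 hEk).differentiableAt (by norm_num)
      have h3 : fderiv ℝ (fun v => A (E k v) * w (E k v)) 0 = _ := (hdA.mul hdw.hasFDerivAt).fderiv
      have hA0 : A (E k 0) = 0 := by
        rw [hA, aff_lin, h]
        simp
      rw [h3, hA0, zero_smul, zero_add, h]
      have h4 : ∀ i, (fderiv ℝ (E k) 0 (p : P)) i = (J p) i := fun i => by
        rw [H k hk h p p.2]
        rfl
      have h5 : (∑ i, b i • ((pr i).comp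
            (fderiv ℝ (E k) 0))) (p : P) = κ * ℓ p := by
        have h6 : (∑ i, b i • ((pr i).comp
            (fderiv ℝ (E k) 0))) (p : P) = ∑ i, b i * (J p) i := by
          rw [ContinuousLinearMap.sum_apply]
          apply Finset.sum_congr rfl
          intro i _
          rw [← h4 i]
          rfl
        rw [h6]
        have h7 : Jl (J p) = p := congrArg (fun T : P0 →ₗ[ℝ] P0 => T p) hJl
        have h8 : J p = ∑ i, (J p) i • EuclideanSpace.single i (1:ℝ) := by
          ext j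
          simp [Pi.single_apply]
        have h9 : ℓ p = ∑ i, (J p) i * ℓ (Jl (EuclideanSpace.single i 1)) := by
          conv_lhs => rw [← h7, h8]
          rw [map_sum, map_sum]
          apply Finset.sum_congr rfl
          intro i _
          rw [map_smul, map_smul, smul_eq_mul]
        rw [h9, Finset.mul_sum]
        apply Finset.sum_congr rfl
        intro i _
        rw [hb]
        ring
      rw [ContinuousLinearMap.smul_apply, smul_eq_mul, h5]
    · rw [if_neg h, (other_jet hEk (hwk k hk h) (aff_cd _)).1]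
      rfl
  rw [Finset.sum_congr rfl hterm, ← Finset.sum_filter, Finset.sum_const, ← hKf, nsmul_eq_mul, hκ]
  field_simp

theorem family_S2 (hq : 1 ≤ q) (hE : ∀ k < q, ContDiffAt ℝ 3 (E k) 0)
    (inj : Injective (fderiv ℝ (E 0) 0)) :
    ∃ c : (Fin (3 * q + 2) → Option (Fin m)) → ℝ,
      (∀ p, fderiv ℝ (fun v => gf E q (3 * q + 2) v c) 0 p = 0) ∧
      ∀ v, fderiv ℝ (fderiv ℝ (fun v => gf E q (3 * q + 2) v c)) 0 v = 0 → v = 0 := by
  classical
  obtain ⟨w, hwr, hwc, hw0, hwk⟩ := exists_w E q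
  set A : Fin m → EuclideanSpace ℝ (Fin m) → ℝ := fun i => aff (cf i (E 0 0 i)) with hA
  have hAe : ∀ i z, A i z = z i - E 0 0 i := fun i z => aff_cf i _ z
  have hrep : Rep (3 * q + 2) (fun z => ∑ i, A i z * (A i z * w z)) :=
    rep_sum _ fun i _ => rep_mul (rep_mul hwr _) _
  obtain ⟨c, hc⟩ := hrep
  refine ⟨c, ?_⟩
  have e1 : (fun v => gf E q (3 * q + 2) v c) =
      fun v => ∑ k ∈ Finset.range q, ∑ i, (A i (E k v) * A i (E k v)) * w (E k v) := by
    funext v
    rw [gf_rep E q hc v]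
    apply Finset.sum_congr rfl
    intro k _
    apply Finset.sum_congr rfl
    intro i _
    ring
  have hcdi : ∀ k < q, ∀ i ∈ (Finset.univ : Finset (Fin m)),
      ContDiffAt ℝ 3 (fun v => (A i (E k v) * A i (E k v)) * w (E k v)) 0 := by
    intro k hk i _
    have hk' := hE k hk
    have hAi : ContDiffAt ℝ 3 (fun v => A i (E k v)) 0 := (aff_cd _).contDiffAt.comp 0 hk'
    exact (hAi.mul hAi).mul (hwc.contDiffAt.comp 0 hk')
  have hcd : ∀ k ∈ Finset.range q,
      ContDiffAt ℝ 3 (fun v => ∑ i, (A i (E k v) * A i (E k v)) * w (E k v)) 0 := fun k hk =>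
    ContDiffAt.sum fun i hi => hcdi k (Finset.mem_range.1 hk) i hi
  have hjet : ∀ k < q, ∀ i, fderiv ℝ (fun v => (A i (E k v) * A i (E k v)) * w (E k v)) 0 = 0 ∧
      ∀ u, fderiv ℝ (fderiv ℝ (fun v => (A i (E k v) * A i (E k v)) * w (E k v))) 0 u u =
        if E k 0 = E 0 0 then 2 * w (E 0 0) * (fderiv ℝ (E k) 0 u i) ^ 2 else 0 := by
    intro k hk i
    have hEk := hE k hk
    by_cases h : E k 0 = E 0 0
    · have e2 : (fun v => (A i (E k v) * A i (E k v)) * w (E k v)) =
          fun v => (E k v i - E 0 0 i) ^ 2 * w (E k v) := by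
        funext v
        rw [hAe]
        ring
      have h1 := sq_jet (coord_cd hEk i (E 0 0 i)) (hwc.contDiffAt.comp 0 hEk)
        (by rw [h, sub_self])
      rw [e2]
      refine ⟨h1.1, fun u => ?_⟩
      have h2 := h1.2 u u
      rw [coord_fd hEk] at h2
      rw [if_pos h]
      refine h2.trans ?_
      simp only [Function.comp, h]
      ring
    · have h1 := other_jet (p := fun z => A i z * A i z) hEk (hwk k hk h)
        ((aff_cd _).mul (aff_cd _))
      refine ⟨h1.1, fun u => ?_⟩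
      rw [if_neg h]
      have h2 : fderiv ℝ (fderiv ℝ (fun v => (A i (E k v) * A i (E k v)) * w (E k v))) 0 = 0 :=
        h1.2
      rw [h2]
      rfl
  rw [e1]
  constructor
  · intro p
    rw [(sum_jet _ hcd).1]
    have : ∑ k ∈ Finset.range q, fderiv ℝ (fun v => ∑ i, (A i (E k v) * A i (E k v)) *
        w (E k v)) 0 = 0 := by
      apply Finset.sum_eq_zero
      intro k hk
      rw [Finset.mem_range] at hk
      rw [(sum_jet _ (hcdi k hk)).1]
      exact Finset.sum_eq_zero fun i _ => (hjet k hk i).1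
    rw [this]
    rfl
  · intro v hv
    have h1 : ∑ k ∈ Finset.range q, ∑ i,
        (if E k 0 = E 0 0 then 2 * w (E 0 0) * (fderiv ℝ (E k) 0 v i) ^ 2 else 0) = 0 := by
      have h2 := congrArg (fun T : P →L[ℝ] ℝ => T v) hv
      simp only [ContinuousLinearMap.zero_apply] at h2
      rw [(sum_jet _ hcd).2, ContinuousLinearMap.sum_apply, ContinuousLinearMap.sum_apply] at h2
      refine Eq.trans ?_ h2
      apply Finset.sum_congr rfl
      intro k hk
      rw [Finset.mem_range] at hk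
      rw [(sum_jet _ (hcdi k hk)).2, ContinuousLinearMap.sum_apply, ContinuousLinearMap.sum_apply]
      apply Finset.sum_congr rfl
      intro i _
      exact ((hjet k hk i).2 v).symm
    have h3 : w (E 0 0) * ∑ k ∈ Finset.range q, ∑ i,
        (if E k 0 = E 0 0 then (fderiv ℝ (E k) 0 v i) ^ 2 else 0) = 0 := by
      rw [Finset.mul_sum]
      have h4 : ∑ k ∈ Finset.range q, w (E 0 0) * ∑ i,
          (if E k 0 = E 0 0 then (fderiv ℝ (E k) 0 v i) ^ 2 else 0) = (1 / 2) *
          ∑ k ∈ Finset.range q, ∑ i,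
        (if E k 0 = E 0 0 then 2 * w (E 0 0) * (fderiv ℝ (E k) 0 v i) ^ 2 else 0) := by
        rw [Finset.mul_sum]
        apply Finset.sum_congr rfl
        intro k _
        rw [Finset.mul_sum, Finset.mul_sum]
        apply Finset.sum_congr rfl
        intro i _
        split_ifs <;> ring
      rw [h4, h1, mul_zero]
    have h4 := (mul_eq_zero.1 h3).resolve_left hw0
    have hnn : ∀ k ∈ Finset.range q, 0 ≤ ∑ i,
        (if E k 0 = E 0 0 then (fderiv ℝ (E k) 0 v i) ^ 2 else 0) := fun k _ =>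
      Finset.sum_nonneg fun i _ => by split_ifs <;> positivity
    have h5 := (Finset.sum_eq_zero_iff_of_nonneg hnn).1 h4 0 (Finset.mem_range.2 hq)
    simp only [if_true] at h5
    have h6 := (Finset.sum_eq_zero_iff_of_nonneg (fun i _ => sq_nonneg _)).1 h5
    apply inj
    rw [map_zero]
    ext i
    have := h6 i (Finset.mem_univ i)
    simpa using this

end Pool.Agent.V8H61.PM
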