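import Pool.Agent.V8H61.PM.Lin
import Pool.Agent.V8H61.PM.Poly
import Pool.Agent.Y318.MN.Push

set_option autoImplicit false
set_option linter.unusedSectionVars false

/-!
# Invariant functions with finitely many critical points
-/

open scoped Manifold ContDiff Topology
open Set Filter Metric MeasureTheory Function

universe u

namespace Pool.Agent.V8H61.PM

open Pool.Agent.H718R2.G Pool.Agent.Y318.MN

variable {n : ℕ} {N : Type u} [TopologicalSpace N] [T2Space N] [ChartedSpace (V n) N]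
  [IsManifold (𝓡 n) ∞ N]

/-- Local parametrization which linearizes a map of finite order. -/
theorem local_param (x0 : N) {T : N → N} (hT : ContMDiff (𝓡 n) (𝓡 n) ∞ T) (h0 : T x0 = x0)
    {s : ℕ} (hs : 1 ≤ s) (hper : ∀ x, T^[s] x = x) :
    ∃ (L : V n →L[ℝ] V n) (γ : V n → N) (κ : N → V n), γ 0 = x0 ∧ κ x0 = 0 ∧
      (∀ᶠ x in 𝓝 x0, ContinuousAt κ x) ∧ ContinuousAt γ 0 ∧
      (∀ᶠ v in 𝓝 0, κ (γ v) = v) ∧ (∀ᶠ x in 𝓝 x0, γ (κ x) = x) ∧
      (∀ᶠ v in 𝓝 0, T (γ v) = γ (L v)) ∧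
      (∀ h : N → ℝ, ContMDiff (𝓡 n) 𝓘(ℝ, ℝ) ∞ h → ContDiffAt ℝ 3 (fun v => h (γ v)) 0) ∧
      (∀ (m : ℕ) (e : N → EuclideanSpace ℝ (Fin m)), ContMDiff (𝓡 n) (𝓡 m) ∞ e →
        ContDiffAt ℝ 3 (fun v => e (γ v)) 0 ∧
        (Injective (mfderiv (𝓡 n) (𝓡 m) e x0) → Injective (fderiv ℝ (fun v => e (γ v)) 0))) ∧
      (∀ᶠ v in 𝓝 (0 : V n), ∀ h : N → ℝ, ContMDiff (𝓡 n) 𝓘(ℝ, ℝ) ∞ h → IsCrit n h (γ v) →
        fderiv ℝ (fun w => h (γ w)) v = 0) := by
  set ψ := chartAt (V n) x0 with hψ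
  have hψa : ψ ∈ IsManifold.maximalAtlas (𝓡 n) ∞ N := IsManifold.chart_mem_maximalAtlas x0
  have hx0 : x0 ∈ ψ.source := mem_chart_source (V n) x0
  set p := ψ x0 with hp
  have hpt : p ∈ ψ.target := ψ.map_source hx0
  have hsp : ψ.symm p = x0 := ψ.left_inv hx0
  have hsymm : ∀ v ∈ ψ.target, ContMDiffAt (𝓡 n) (𝓡 n) ∞ ψ.symm v := fun v hv =>
    (contMDiffOn_symm_of_mem_maximalAtlas hψa _ hv).contMDiffAt (ψ.open_target.mem_nhds hv)
  have hcoe : ∀ x ∈ ψ.source, ContMDiffAt (𝓡 n) (𝓡 n) ∞ ψ x := fun x hx =>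
    (contMDiffOn_of_mem_maximalAtlas hψa _ hx).contMDiffAt (ψ.open_source.mem_nhds hx)
  -- the map in the chart
  set τ : V n → V n := fun v => ψ (T (ψ.symm (v + p))) - p with hτ
  have hadd : ContMDiffAt (𝓡 n) (𝓡 n) ∞ (fun v : V n => v + p) 0 :=
    (contDiffAt_id.add contDiffAt_const).contMDiffAt
  have h0p : (0 : V n) + p = p := zero_add p
  have hτcd : ContDiffAt ℝ 3 τ 0 := by
    have h1 : ContMDiffAt (𝓡 n) (𝓡 n) ∞ (fun v : V n => ψ.symm (v + p)) 0 := by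
      have := hsymm p hpt
      rw [← h0p] at this
      exact this.comp (0 : V n) hadd
    have h2 : ContMDiffAt (𝓡 n) (𝓡 n) ∞ (fun v : V n => T (ψ.symm (v + p))) 0 :=
      (hT.contMDiffAt).comp (0 : V n) h1
    have h3 : ContMDiffAt (𝓡 n) (𝓡 n) ∞ (fun v : V n => ψ (T (ψ.symm (v + p)))) 0 := by
      have h4 : T (ψ.symm ((0 : V n) + p)) = x0 := by rw [h0p, hsp, h0]
      have h5 := hcoe x0 hx0
      rw [← h4] at h5
      exact h5.comp (0 : V n) h2
    have h6 : ContDiffAt ℝ ∞ (fun v : V n => ψ (T (ψ.symm (v + p)))) 0 :=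
      contMDiffAt_iff_contDiffAt.1 h3
    exact (h6.sub contDiffAt_const).of_le (by norm_cast)
  have hτ0 : τ 0 = 0 := by
    rw [hτ]
    simp only [h0p, hsp, h0]
    exact sub_self _
  have hshift : ContinuousAt (fun v : V n => ψ.symm (v + p)) 0 := by
    apply ContinuousAt.comp (g := ψ.symm)
    · rw [h0p]
      exact ψ.symm.continuousAt hpt
    · fun_prop
  have hTk : ∀ k, T^[k] x0 = x0 := fun k => iterate_fixed h0 k
  have hTkc : ∀ k, Continuous T^[k] := fun k => hT.continuous.iterate k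
  have hmem : ∀ k, ∀ᶠ v in 𝓝 (0 : V n), T^[k] (ψ.symm (v + p)) ∈ ψ.source := by
    intro k
    have h1 : ContinuousAt (fun v : V n => T^[k] (ψ.symm (v + p))) 0 :=
      ContinuousAt.comp (hTkc k).continuousAt hshift
    apply h1.eventually
    show ∀ᶠ y in 𝓝 (T^[k] (ψ.symm ((0 : V n) + p))), y ∈ ψ.source
    rw [h0p, hsp, hTk]
    exact ψ.open_source.mem_nhds hx0
  have htgt : ∀ᶠ v in 𝓝 (0 : V n), v + p ∈ ψ.target := by
    have h1 : ContinuousAt (fun v : V n => v + p) 0 := by fun_prop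
    apply h1.eventually
    show ∀ᶠ y in 𝓝 ((0 : V n) + p), y ∈ ψ.target
    rw [h0p]
    exact ψ.open_target.mem_nhds hpt
  have hτk : ∀ k, ∀ᶠ v in 𝓝 (0 : V n), τ^[k] v = ψ (T^[k] (ψ.symm (v + p))) - p := by
    intro k
    induction k with
    | zero =>
      filter_upwards [htgt] with v hv
      simp only [iterate_zero, id]
      rw [ψ.right_inv hv, add_sub_cancel_right]
    | succ k ih =>
      filter_upwards [ih, hmem k] with v h1 h2
      rw [iterate_succ_apply', iterate_succ_apply', h1, hτ]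
      simp only [sub_add_cancel]
      rw [ψ.left_inv h2]
  have hτper : ∀ᶠ v in 𝓝 (0 : V n), τ^[s] v = v := by
    filter_upwards [hτk s, htgt] with v h1 h2
    rw [h1, hper, ψ.right_inv h2, add_sub_cancel_right]
  obtain ⟨L, Θ, σ, hΘ0, hσ0, hΘcd, hσcd, hΘσ, hσΘ, hτσ, hσinj⟩ :=
    linearize hτcd hτ0 hs hτper
  set γ : V n → N := fun v => ψ.symm (σ v + p) with hγ
  set κ : N → V n := fun x => Θ (ψ x - p) with hκ
  have hσc : ContinuousAt σ 0 := hσcd.continuousAt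
  have hσt : Tendsto σ (𝓝 0) (𝓝 0) := by
    have := hσc.tendsto
    rwa [hσ0] at this
  have hγc : ContinuousAt γ 0 := by
    apply ContinuousAt.comp (g := fun v : V n => ψ.symm (v + p))
    · rw [hσ0]; exact hshift
    · exact hσc
  have hψt : Tendsto (fun x => ψ x - p) (𝓝 x0) (𝓝 0) := by
    have : ContinuousAt (fun x => ψ x - p) x0 := (ψ.continuousAt hx0).sub continuousAt_const
    have h1 := this.tendsto
    rw [← hp, sub_self] at h1
    exact h1
  have hΘev : ∀ᶠ v in 𝓝 (0 : V n), ContinuousAt Θ v :=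
    (hΘcd.eventually three_ne).mono fun v hv => hv.continuousAt
  have hσtgt : ∀ᶠ v in 𝓝 (0 : V n), σ v + p ∈ ψ.target := hσt.eventually htgt
  have key : ∀ {F' : Type} [NormedAddCommGroup F'] [NormedSpace ℝ F'] (f : N → F'),
      ContMDiff (𝓡 n) 𝓘(ℝ, F') ∞ f → ∀ v ∈ ψ.target, ContDiffAt ℝ 3 (fun w => f (ψ.symm w)) v := by
    intro F' _ _ f hf v hv
    have h1 : ContMDiffAt (𝓡 n) 𝓘(ℝ, F') ∞ (fun w => f (ψ.symm w)) v :=
      (hf.contMDiffAt).comp v (hsymm v hv)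
    exact (contMDiffAt_iff_contDiffAt.1 h1).of_le (by norm_cast)
  have key2 : ∀ {F' : Type} [NormedAddCommGroup F'] [NormedSpace ℝ F'] (f : N → F'),
      ContMDiff (𝓡 n) 𝓘(ℝ, F') ∞ f → ContDiffAt ℝ 3 (fun v => f (γ v)) 0 := by
    intro F' _ _ f hf
    have h1 : ContDiffAt ℝ 3 (fun v => σ v + p) 0 := hσcd.add contDiffAt_const
    have h2 := key f hf p hpt
    have e : p = (fun v => σ v + p) 0 := by simp only [hσ0, zero_add]
    rw [e] at h2
    exact ContDiffAt.comp (g := fun w => f (ψ.symm w)) (f := fun v => σ v + p) 0 h2 h1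
  refine ⟨L, γ, κ, ?_, ?_, ?_, hγc, ?_, ?_, ?_, fun h hh => key2 h hh, fun m e he =>
    ⟨key2 e he, fun hinj => ?_⟩, ?_⟩
  · rw [hγ]; simp only [hσ0, zero_add]; exact hsp
  · rw [hκ]; simp only; rw [← hp, sub_self]; exact hΘ0
  · filter_upwards [hψt.eventually hΘev, ψ.open_source.mem_nhds hx0] with x h1 h2
    exact ContinuousAt.comp (g := Θ) h1 ((ψ.continuousAt h2).sub continuousAt_const)
  · filter_upwards [hΘσ, hσtgt] with v h1 h2
    rw [hκ, hγ]
    simp only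
    rw [ψ.right_inv h2, add_sub_cancel_right, h1]
  · filter_upwards [hψt.eventually hσΘ, ψ.open_source.mem_nhds hx0] with x h1 h2
    rw [hκ, hγ]
    simp only
    rw [h1, sub_add_cancel, ψ.left_inv h2]
  · have h1 := hσt.eventually (hmem 1)
    filter_upwards [hτσ, h1] with v h2 h3
    rw [hγ]
    simp only [iterate_one] at h3 ⊢
    rw [← h2, hτ]
    simp only [sub_add_cancel]
    rw [ψ.left_inv h3]
  · -- injectivity
    have h1 : HasFDerivAt (fun v => σ v + p) (fderiv ℝ σ 0) 0 :=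
      (hσcd.differentiableAt (by norm_num)).hasFDerivAt.add_const p
    have e1 : (fun v => σ v + p) 0 = p := by simp only [hσ0, zero_add]
    have h2 : DifferentiableAt ℝ (fun w => e (ψ.symm w)) p :=
      (key e he p hpt).differentiableAt (by norm_num)
    have h2' : HasFDerivAt (fun w => e (ψ.symm w)) (fderiv ℝ (fun w => e (ψ.symm w)) p)
        ((fun v => σ v + p) 0) := by rw [e1]; exact h2.hasFDerivAt
    have h3 := (HasFDerivAt.comp (g := fun w => e (ψ.symm w)) (f := fun v => σ v + p) 0 h2' h1).fderiv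
    have h3' : fderiv ℝ (fun v => e (γ v)) 0 =
      (fderiv ℝ (fun w => e (ψ.symm w)) p).comp (fderiv ℝ σ 0) := h3
    rw [h3']
    have h4 : Injective (fderiv ℝ (fun w => e (ψ.symm w)) p) := by
      have hs1 : MDifferentiableAt (𝓡 n) (𝓡 n) ψ.symm p := (hsymm p hpt).mdifferentiableAt (by simp)
      have he1 : MDifferentiableAt (𝓡 n) (𝓡 m) e (ψ.symm p) := he.mdifferentiableAt (by simp)
      have h5 := mfderiv_comp (I := 𝓡 n) (I' := 𝓡 n) (I'' := 𝓡 m) p he1 hs1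
      rw [mfderiv_eq_fderiv] at h5
      have h6 : Injective (mfderiv (𝓡 n) (𝓡 n) ψ.symm p) := by
        have hc1 : MDifferentiableAt (𝓡 n) (𝓡 n) ψ (ψ.symm p) :=
          (hcoe _ (by rw [hsp]; exact hx0)).mdifferentiableAt (by simp)
        have h7 := mfderiv_comp (I := 𝓡 n) (I' := 𝓡 n) (I'' := 𝓡 n) p hc1 hs1
        have e2 : (ψ ∘ ψ.symm) =ᶠ[𝓝 p] id := by
          filter_upwards [ψ.open_target.mem_nhds hpt] with w hw
          exact ψ.right_inv hw
        rw [e2.mfderiv_eq, mfderiv_id] at h7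
        intro a b hab
        have h8 := congrArg (fun A : V n →L[ℝ] V n => A a) h7
        have h9 := congrArg (fun A : V n →L[ℝ] V n => A b) h7
        have h10 : a = mfderiv (𝓡 n) (𝓡 n) ψ (ψ.symm p) (mfderiv (𝓡 n) (𝓡 n) ψ.symm p a) := h8
        have h11 : b = mfderiv (𝓡 n) (𝓡 n) ψ (ψ.symm p) (mfderiv (𝓡 n) (𝓡 n) ψ.symm p b) := h9
        rw [h10, h11, hab]
      have h12 : fderiv ℝ (fun w => e (ψ.symm w)) p =
        (mfderiv (𝓡 n) (𝓡 m) e (ψ.symm p)).comp (mfderiv (𝓡 n) (𝓡 n) ψ.symm p) := h5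
      rw [h12]
      have h13 : Injective (mfderiv (𝓡 n) (𝓡 m) e (ψ.symm p)) := by rw [hsp]; exact hinj
      exact h13.comp h6
    exact h4.comp hσinj
  · have hσd : ∀ᶠ v in 𝓝 (0 : V n), DifferentiableAt ℝ σ v :=
      (hσcd.eventually three_ne).mono fun v hv => hv.differentiableAt (by norm_num)
    filter_upwards [hσd, hσtgt] with v h1 h2 h hh hcrit
    have h3 : γ v ∈ ψ.source := ψ.map_target h2
    have h4 := (crit_iff hh hψa h3).1 hcrit
    have e1 : ψ (γ v) = σ v + p := ψ.right_inv h2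
    rw [e1] at h4
    have h5 : DifferentiableAt ℝ (fun w => h (ψ.symm w)) (σ v + p) :=
      (key h hh _ h2).differentiableAt (by norm_num)
    have h6 := HasFDerivAt.comp (g := fun w => h (ψ.symm w)) (f := fun v => σ v + p) v
      h5.hasFDerivAt (h1.hasFDerivAt.add_const p)
    have h7 : fderiv ℝ (fun w => h (γ w)) v =
      (fderiv ℝ (fun w => h (ψ.symm w)) (σ v + p)).comp (fderiv ℝ σ v) := h6.fderiv
    rw [h7, h4]
    rfl

/-- the set of the critical points is closed -/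
theorem crit_closed {h : N → ℝ} (hh : ContMDiff (𝓡 n) 𝓘(ℝ, ℝ) ∞ h) {x : N}
    (hx : ¬ IsCrit n h x) : ∀ᶠ y in 𝓝 x, ¬ IsCrit n h y := by
  set ψ := chartAt (V n) x with hψ
  have hψa : ψ ∈ IsManifold.maximalAtlas (𝓡 n) ∞ N := IsManifold.chart_mem_maximalAtlas x
  have hx0 : x ∈ ψ.source := mem_chart_source (V n) x
  rw [crit_iff hh hψa hx0] at hx
  have h1 : ContDiffAt ℝ ∞ (fun w => h (ψ.symm w)) (ψ x) := chart_cd hh hψa (ψ.map_source hx0)
  have h2 : ContinuousAt (fderiv ℝ (fun w => h (ψ.symm w))) (ψ x) :=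
    (h1.fderiv_right (m := 0) (by norm_cast)).continuousAt
  have h3 : ∀ᶠ w in 𝓝 (ψ x), fderiv ℝ (fun w => h (ψ.symm w)) w ≠ 0 := h2.eventually_ne hx
  filter_upwards [(ψ.continuousAt hx0).eventually h3, ψ.open_source.mem_nhds hx0] with y h4 h5 h6
  exact h4 ((crit_iff hh hψa h5).1 h6)

variable {m : ℕ}

/-- the members of the family -/
noncomputable def gN (F : N → N) (q : ℕ) (e : N → EuclideanSpace ℝ (Fin m))
    (i : Fin (3 * q + 2) → Option (Fin m)) (x : N) : ℝ :=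
  ∑ k ∈ Finset.range q, mono i (e (F^[k] x))

/-- the perturbed function -/
noncomputable def hcf (F : N → N) (q : ℕ) (e : N → EuclideanSpace ℝ (Fin m)) (h : N → ℝ)
    (c : (Fin (3 * q + 2) → Option (Fin m)) → ℝ) (x : N) : ℝ :=
  h x + ∑ i, c i * gN F q e i x

theorem mono_cdi {D : ℕ} (i : Fin D → Option (Fin m)) :
    ContDiff ℝ ∞ (fun z : EuclideanSpace ℝ (Fin m) => mono i z) := by
  apply contDiff_prod
  intro a _
  cases i a with
  | none => exact contDiff_const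
  | some j => exact (pr j).contDiff

theorem iter_smooth {F : N → N} (hF : ContMDiff (𝓡 n) (𝓡 n) ∞ F) (k : ℕ) :
    ContMDiff (𝓡 n) (𝓡 n) ∞ F^[k] := by
  induction k with
  | zero => exact contMDiff_id
  | succ k ih =>
    rw [iterate_succ']
    exact hF.comp ih

theorem gN_smooth {F : N → N} (hF : ContMDiff (𝓡 n) (𝓡 n) ∞ F) (q : ℕ)
    {e : N → EuclideanSpace ℝ (Fin m)} (he : ContMDiff (𝓡 n) (𝓡 m) ∞ e)
    (i : Fin (3 * q + 2) → Option (Fin m)) : ContMDiff (𝓡 n) 𝓘(ℝ, ℝ) ∞ (gN F q e i) := by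
  unfold gN
  apply contMDiff_finsetSum
  intro k _
  exact (mono_cdi i).contMDiff.comp (he.comp (iter_smooth hF k))

theorem hcf_smooth {F : N → N} (hF : ContMDiff (𝓡 n) (𝓡 n) ∞ F) (q : ℕ)
    {e : N → EuclideanSpace ℝ (Fin m)} (he : ContMDiff (𝓡 n) (𝓡 m) ∞ e) {h : N → ℝ}
    (hh : ContMDiff (𝓡 n) 𝓘(ℝ, ℝ) ∞ h) (c : (Fin (3 * q + 2) → Option (Fin m)) → ℝ) :
    ContMDiff (𝓡 n) 𝓘(ℝ, ℝ) ∞ (hcf F q e h c) := by
  unfold hcf
  apply hh.add
  apply contMDiff_finsetSum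
  intro i _
  exact contMDiff_const.mul (gN_smooth hF q he i)

theorem gN_inv {F : N → N} {q : ℕ} (hq : 1 ≤ q) (hper : ∀ x, F^[q] x = x)
    (e : N → EuclideanSpace ℝ (Fin m)) (i : Fin (3 * q + 2) → Option (Fin m)) (x : N) :
    gN F q e i (F x) = gN F q e i x := by
  unfold gN
  obtain ⟨r, rfl⟩ : ∃ r, q = r + 1 := ⟨q - 1, by omega⟩
  rw [Finset.sum_range_succ, Finset.sum_range_succ' (fun k => mono i (e (F^[k] x)))]
  congr 1
  rw [← iterate_succ_apply, hper]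
  rfl

theorem local_crit {F : N → N} (hF : ContMDiff (𝓡 n) (𝓡 n) ∞ F) {q : ℕ} (hq : 1 ≤ q)
    (hper : ∀ x, F^[q] x = x) {e : N → EuclideanSpace ℝ (Fin m)}
    (he : ContMDiff (𝓡 n) (𝓡 m) ∞ e) (hei : Injective e)
    (hed : ∀ x, Injective (mfderiv (𝓡 n) (𝓡 m) e x)) {h : N → ℝ}
    (hh : ContMDiff (𝓡 n) 𝓘(ℝ, ℝ) ∞ h) (x0 : N) :
    ∃ U ∈ 𝓝 x0, ∀ᵐ c : (Fin (3 * q + 2) → Option (Fin m)) → ℝ, ∀ x ∈ U,
      minimalPeriod F x = minimalPeriod F x0 → IsCrit n (hcf F q e h c) x →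
      ∀ᶠ y in 𝓝[≠] x, ¬ IsCrit n (hcf F q e h c) y := by
  classical
  set d := minimalPeriod F x0 with hd
  have hdpos : 0 < d := IsPeriodicPt.minimalPeriod_pos (by omega : 0 < q) (hper x0)
  set T := F^[d] with hT
  have hTs : ContMDiff (𝓡 n) (𝓡 n) ∞ T := iter_smooth hF d
  have hT0 : T x0 = x0 := isPeriodicPt_minimalPeriod F x0
  have hTper : ∀ x, T^[q] x = x := by
    intro x
    rw [hT, ← iterate_mul, mul_comm, iterate_mul]
    have : F^[q] = id := funext hper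
    rw [this, iterate_id]
    rfl
  obtain ⟨L, γ, κ, hγ0, hκ0, hκc, hγc, hκγ, hγκ, hTγ, hcd, hcde, hcrit⟩ :=
    local_param x0 hTs hT0 hq hTper
  set P0 : Submodule ℝ (V n) := LinearMap.ker ((L - 1 : V n →L[ℝ] V n) : V n →ₗ[ℝ] V n) with hP0
  have hP0m : ∀ p, p ∈ P0 ↔ L p = p := by
    intro p
    rw [hP0, LinearMap.mem_ker]
    show L p - p = 0 ↔ _
    exact sub_eq_zero
  set E : ℕ → V n → EuclideanSpace ℝ (Fin m) := fun k v => e (F^[k] (γ v)) with hE
  have hEk : ∀ k < q, ContDiffAt ℝ 3 (E k) 0 := fun k _ =>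
    (hcde m (fun x => e (F^[k] x)) (he.comp (iter_smooth hF k))).1
  have hinj : Injective (fderiv ℝ (E 0) 0) := (hcde m e he).2 (hed x0)
  have hTl : ∀ l, ∀ᶠ v in 𝓝 (0 : V n), T^[l] (γ v) = γ ((L ^ l) v) := by
    intro l
    induction l with
    | zero => exact Eventually.of_forall fun v => rfl
    | succ l ih =>
      have h1 : Tendsto (fun v => (L ^ l) v) (𝓝 0) (𝓝 0) := by
        have := (L ^ l).continuous.tendsto 0
        rwa [map_zero] at this
      filter_upwards [ih, h1.eventually hTγ] with v h2 h3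
      rw [iterate_succ_apply', h2, h3, pow_succ']
      rfl
  have hLl : ∀ l : ℕ, ∀ p ∈ P0, (L ^ l) p = p := by
    intro l
    induction l with
    | zero => intro p _; rfl
    | succ l ih =>
      intro p hp
      rw [pow_succ']
      show L ((L ^ l) p) = p
      rw [ih p hp, (hP0m p).1 hp]
  have H : ∀ k < q, E k 0 = E 0 0 → ∀ p ∈ P0, fderiv ℝ (E k) 0 p = fderiv ℝ (E 0) 0 p := by
    intro k _ hk p hp
    have h1 : F^[k] x0 = x0 := by
      have := hei hk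
      rw [hγ0] at this
      exact this
    obtain ⟨l, rfl⟩ := (IsPeriodicPt.minimalPeriod_dvd h1 : minimalPeriod F x0 ∣ k)
    have h2 : E (minimalPeriod F x0 * l) =ᶠ[𝓝 0] fun v => E 0 ((L ^ l) v) := by
      filter_upwards [hTl l] with v hv
      rw [hE]
      simp only [iterate_zero, id]
      rw [iterate_mul, ← hd, ← hT, hv]
    rw [h2.fderiv_eq]
    have h3 : HasFDerivAt (E 0) (fderiv ℝ (E 0) 0) ((L ^ l) (0 : V n)) := by
      rw [map_zero]
      exact ((hEk 0 (by omega)).differentiableAt (by norm_num)).hasFDerivAt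
    have h4 : fderiv ℝ (fun v => E 0 ((L ^ l) v)) 0 = _ :=
      (h3.comp (0 : V n) (L ^ l).hasFDerivAt).fderiv
    rw [h4]
    show fderiv ℝ (E 0) 0 ((L ^ l) p) = _
    rw [hLl l p hp]
  obtain ⟨r, hr, hae⟩ := gen_crit (volume : Measure ((Fin (3 * q + 2) → Option (Fin m)) → ℝ)) P0
    (gf_cd (E := E) (q := q) (3 * q + 2) hEk) (hcd h hh)
    (fun ℓ => family_S1 hq hEk P0 H hinj ℓ)
    (by
      obtain ⟨c, h1, h2⟩ := family_S2 hq hEk hinj
      exact ⟨c, fun p _ => h1 p, h2⟩)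
  have hfun : ∀ c v, hcf F q e h c (γ v) = h (γ v) + gf E q (3 * q + 2) v c := by
    intro c v
    rw [gf_apply]
    rfl
  have hκ0c : ContinuousAt κ x0 := hκc.self_of_nhds
  have hκt : Tendsto κ (𝓝 x0) (𝓝 0) := by
    have := hκ0c.tendsto
    rwa [hκ0] at this
  have hLt : Tendsto (fun v => L v) (𝓝 0) (𝓝 0) := by
    have := L.continuous.tendsto 0
    rwa [map_zero] at this
  have hball : ∀ᶠ v in 𝓝 (0 : V n), ‖v‖ < r := by
    have := ball_mem_nhds (0 : V n) hr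
    filter_upwards [this] with v hv
    rwa [mem_ball_zero_iff] at hv
  have hU : ∀ᶠ x in 𝓝 x0, (∀ᶠ y in 𝓝 x, γ (κ y) = y) ∧ ‖κ x‖ < r ∧ ContinuousAt κ x ∧
      T (γ (κ x)) = γ (L (κ x)) ∧ κ (γ (L (κ x))) = L (κ x) ∧
      (∀ᶠ w in 𝓝 (κ x), ∀ h : N → ℝ, ContMDiff (𝓡 n) 𝓘(ℝ, ℝ) ∞ h → IsCrit n h (γ w) →
        fderiv ℝ (fun w => h (γ w)) w = 0) := by
    filter_upwards [eventually_eventually_nhds.2 hγκ, hκt.eventually hball, hκc,
      hκt.eventually hTγ, hκt.eventually (hLt.eventually hκγ),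
      hκt.eventually (eventually_eventually_nhds.2 hcrit)] with x h1 h2 h3 h4 h5 h6
    exact ⟨h1, h2, h3, h4, h5, h6⟩
  refine ⟨_, hU, ?_⟩
  filter_upwards [hae] with c hc x hx hxd hxc
  obtain ⟨h1, h2, h3, h4, h5, h6⟩ := hx
  have hγx : γ (κ x) = x := h1.self_of_nhds
  have hTx : T x = x := by
    rw [hT, ← hxd]
    exact isPeriodicPt_minimalPeriod F x
  have hu : κ x ∈ P0 := by
    rw [hP0m, ← h5, ← h4, hγx, hTx]
  have hsm := hcf_smooth hF q he hh c
  have hfe : (fun w => hcf F q e h c (γ w)) = fun v => h (γ v) + gf E q (3 * q + 2) v c :=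
    funext fun v => hfun c v
  have h7 : fderiv ℝ (fun v => h (γ v) + gf E q (3 * q + 2) v c) (κ x) = 0 := by
    rw [← hfe]
    exact h6.self_of_nhds _ hsm (by rw [hγx]; exact hxc)
  have h8 := hc (κ x) hu h2 h7
  rw [eventually_nhdsWithin_iff] at h8 ⊢
  filter_upwards [h1, h3.eventually h8, h3.eventually h6] with y e1 e2 e3 hyx hyc
  have e4 : κ y ∈ ({κ x}ᶜ : Set (V n)) := by
    intro heq
    apply hyx
    have : κ y = κ x := heq
    rw [mem_singleton_iff, ← e1, this, hγx]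
  apply e2 e4
  rw [← hfe]
  exact e3 _ hsm (by rw [e1]; exact hyc)

/-- **Invariant functions with finitely many critical points.** -/
theorem ae_finite_crit [CompactSpace N] {F : N → N} (hF : ContMDiff (𝓡 n) (𝓡 n) ∞ F) {q : ℕ}
    (hq : 1 ≤ q) (hper : ∀ x, F^[q] x = x) {e : N → EuclideanSpace ℝ (Fin m)}
    (he : ContMDiff (𝓡 n) (𝓡 m) ∞ e) (hei : Injective e)
    (hed : ∀ x, Injective (mfderiv (𝓡 n) (𝓡 m) e x)) {h : N → ℝ}
    (hh : ContMDiff (𝓡 n) 𝓘(ℝ, ℝ) ∞ h) :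
    ∀ᵐ c : (Fin (3 * q + 2) → Option (Fin m)) → ℝ, {x | IsCrit n (hcf F q e h c) x}.Finite := by
  have : SecondCountableTopology N := ChartedSpace.secondCountable_of_sigmaCompact (V n) N
  choose U hU hUae using local_crit hF hq hper he hei hed hh
  have hcov : ∀ d : ℕ, ∃ t ⊆ {x : N | minimalPeriod F x = d}, t.Countable ∧
      {x : N | minimalPeriod F x = d} ⊆ ⋃ x ∈ t, U x := fun d =>
    TopologicalSpace.countable_cover_nhdsWithin fun x _ => mem_nhdsWithin_of_mem_nhds (hU x)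
  choose t ht htc htcov using hcov
  have hall : ∀ᵐ c : (Fin (3 * q + 2) → Option (Fin m)) → ℝ, ∀ d : ℕ, ∀ x0 ∈ t d, ∀ x ∈ U x0,
      minimalPeriod F x = minimalPeriod F x0 → IsCrit n (hcf F q e h c) x →
      ∀ᶠ y in 𝓝[≠] x, ¬ IsCrit n (hcf F q e h c) y := by
    rw [ae_all_iff]
    intro d
    rw [ae_ball_iff (htc d)]
    intro x0 _
    exact hUae x0
  filter_upwards [hall] with c hc
  have hiso : ∀ x, ∀ᶠ y in 𝓝[≠] x, ¬ IsCrit n (hcf F q e h c) y := by
    intro x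
    by_cases hx : IsCrit n (hcf F q e h c) x
    · have h1 := htcov (minimalPeriod F x) (show x ∈ {y : N | minimalPeriod F y = minimalPeriod F x}
        from rfl)
      simp only [mem_iUnion] at h1
      obtain ⟨x0, hx0, hxU⟩ := h1
      have h2 : minimalPeriod F x0 = minimalPeriod F x := ht _ hx0
      exact hc _ x0 hx0 x hxU h2.symm hx
    · exact (crit_closed (hcf_smooth hF q he hh c) hx).filter_mono nhdsWithin_le_nhds
  by_contra hinf
  obtain ⟨x, hx⟩ := (show {x | IsCrit n (hcf F q e h c) x}.Infinite from hinf).exists_accPt_principal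
  have h1 := hiso x
  have h2 : (𝓝[≠] x ⊓ 𝓟 {x | IsCrit n (hcf F q e h c) x}).NeBot := hx
  have h3 : ∀ᶠ y in 𝓝[≠] x ⊓ 𝓟 {x | IsCrit n (hcf F q e h c) x}, False := by
    filter_upwards [h1.filter_mono inf_le_left, mem_inf_of_right (mem_principal_self _)]
      with y h4 h5
    exact h4 h5
  exact h2.ne (Filter.eventually_false_iff_eq_bot.1 h3)

end Pool.Agent.V8H61.PM
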