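import Pool.Agent.V8H61.PM.EM
import Pool.Agent.Y318.MN.Attr

set_option autoImplicit false
set_option linter.unusedSectionVars false

/-!
# Finitude near the diffeomorphisms of finite order
-/

open scoped Manifold ContDiff Topology
open Set Filter Metric MeasureTheory Function

universe u

namespace Pool.Agent.V8H61.PM

open Pool.Agent.H718R2.G Pool.Agent.Y318.MN

open Pool.Agent.H728R2.FA (omegaLim FiniteAttractors)

variable {n : ℕ} {N : Type u} [TopologicalSpace N] [T2Space N] [CompactSpace N]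
  [ChartedSpace (V n) N] [IsManifold (𝓡 n) ∞ N]

/-- **Invariant functions with finitely many critical points exist.** -/
theorem exists_inv_fun {F : N → N} (hF : ContMDiff (𝓡 n) (𝓡 n) ∞ F) {q : ℕ} (hq : 1 ≤ q)
    (hper : ∀ x, F^[q] x = x) :
    ∃ h : N → ℝ, ContMDiff (𝓡 n) 𝓘(ℝ, ℝ) ∞ h ∧ (∀ x, h (F x) = h x) ∧
      {x | IsCrit n h x}.Finite := by
  obtain ⟨m, e, he, hemb, hed⟩ := exists_embedding_euclidean_of_compact (M := N) (I := 𝓡 n)
  have h0 : ContMDiff (𝓡 n) 𝓘(ℝ, ℝ) ∞ (fun _ : N => (0 : ℝ)) := contMDiff_const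
  have h1 := ae_finite_crit hF hq hper he hemb.injective hed h0
  obtain ⟨c, hc⟩ := h1.exists
  refine ⟨hcf F q e (fun _ => 0) c, hcf_smooth hF q he h0 c, fun x => ?_, hc⟩
  unfold hcf
  simp only [gN_inv hq hper]

/-- **Finitude near a diffeomorphism of finite order.** -/
theorem finite_order {r : ℕ∞} (hr : 1 ≤ r) (F : DiffM n N r)
    (hF : ContMDiff (𝓡 n) (𝓡 n) ∞ F) {q : ℕ} (hq : 1 ≤ q) (hper : ∀ x, F^[q] x = x)
    (U : Set (DiffM n N r)) (hU : IsOpen[strongTop n N r] U) (hFU : F ∈ U) :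
    ∃ G ∈ U, (∃ P : Set N, P.Finite ∧ ∀ p, omegaLim G p ⊆ P) ∧
      ∀ (_ : MeasurableSpace N) (μ : Measure N), FiniteAttractors μ G := by
  classical
  obtain ⟨h, hh, hinv, hfin⟩ := exists_inv_fun hF hq hper
  set K : Set N := {x | ∀ k : ℕ, IsCrit n h (F^[k] x)} with hK
  have hKfin : K.Finite := hfin.subset fun x hx => hx 0
  have hKF : ∀ x ∈ K, ∀ k : ℕ, F^[k] x ∈ K := by
    intro x hx k j
    rw [← iterate_add_apply]
    exact hx (j + k)
  set O : N → Set N := fun x => range fun k : ℕ => F^[k] x with hO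
  have hself : ∀ x, x ∈ O x := fun x => ⟨0, rfl⟩
  have hback : ∀ x, ∀ y ∈ O x, x ∈ O y := by
    rintro x _ ⟨k, rfl⟩
    refine ⟨q * k - k, ?_⟩
    show F^[q * k - k] (F^[k] x) = x
    rw [← iterate_add_apply, Nat.sub_add_cancel (Nat.le_mul_of_pos_left k hq)]
    have h1 : ∀ l : ℕ, F^[q * l] x = x := by
      intro l
      induction l with
      | zero => rfl
      | succ l ih => rw [Nat.mul_succ, iterate_add_apply, hper, ih]
    exact h1 k
  have htrans : ∀ x, ∀ y ∈ O x, O y ⊆ O x := by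
    rintro x _ ⟨k, rfl⟩ _ ⟨j, rfl⟩
    refine ⟨j + k, ?_⟩
    show F^[j + k] x = F^[j] (F^[k] x)
    rw [iterate_add_apply]
  have heq : ∀ x, ∀ y ∈ O x, O y = O x := fun x y hy =>
    (htrans x y hy).antisymm (htrans y x (hback x y hy))
  have hSfin : (O '' K).Finite := hKfin.image O
  set S := hSfin.toFinset with hS
  set e := S.equivFin with he
  have hmem : ∀ i, ∃ x ∈ K, O x = (e.symm i : Set N) := fun i => by
    exact hSfin.mem_toFinset.1 (e.symm i).2
  have hsub : ∀ i, (e.symm i : Set N) ⊆ K := by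
    intro i
    obtain ⟨x, hx, h1⟩ := hmem i
    rw [← h1]
    rintro _ ⟨k, rfl⟩
    exact hKF x hx k
  have c1 : ∀ i, F '' (e.symm i : Set N) = (e.symm i : Set N) := by
    intro i
    obtain ⟨x, hx, h1⟩ := hmem i
    rw [← h1]
    apply Subset.antisymm
    · rintro _ ⟨_, ⟨k, rfl⟩, rfl⟩
      exact ⟨k + 1, iterate_succ_apply' F k x⟩
    · rintro y hy
      have h2 : x ∈ O y := hback x y hy
      refine ⟨F^[q - 1] y, ?_, ?_⟩
      · have h3 : F^[q - 1] y ∈ O y := ⟨q - 1, rfl⟩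
        rwa [heq x y hy] at h3
      · have h4 := iterate_succ_apply' F (q - 1) y
        rw [← h4, Nat.succ_eq_add_one, Nat.sub_add_cancel hq, hper]
  have c2 : ∀ i j, i ≠ j → Disjoint (e.symm i : Set N) (e.symm j : Set N) := by
    intro i j hij
    obtain ⟨x, hx, h1⟩ := hmem i
    obtain ⟨y, hy, h2⟩ := hmem j
    rw [Set.disjoint_iff]
    rintro z ⟨hz1, hz2⟩
    apply hij
    apply e.symm.injective
    apply Subtype.ext
    rw [← h1] at hz1 ⊢
    rw [← h2] at hz2 ⊢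
    rw [← heq x z hz1, ← heq y z hz2]
  have c3 : ∀ i, ∃ x ∈ (e.symm i : Set N),
      (e.symm i : Set N) ⊆ closure (range fun k : ℕ => F^[k] x) := by
    intro i
    obtain ⟨x, hx, h1⟩ := hmem i
    refine ⟨x, ?_, ?_⟩
    · rw [← h1]
      exact hself x
    · rw [← h1]
      exact subset_closure
  have c4 : CritInv n F h ⊆ ⋃ i, (e.symm i : Set N) := by
    intro x hx
    have hxK : x ∈ K := fun k => (hx k).1
    have h1 : O x ∈ S := hSfin.mem_toFinset.2 ⟨x, hxK, rfl⟩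
    rw [mem_iUnion]
    refine ⟨e ⟨O x, h1⟩, ?_⟩
    rw [e.symm_apply_apply]
    exact hself x
  obtain ⟨G, hGU, hG1, hG2⟩ := finitude hr F hh (fun x => (hinv x).ge)
    (fun i => (e.symm i : Set N)) (fun i => (hKfin.subset (hsub i)).isClosed) c1 c2
    (fun i x hx => hsub i hx 0) c3 c4 U hU hFU
  refine ⟨G, hGU, ⟨K, hKfin, fun p => ?_⟩, hG2⟩
  obtain ⟨i, hi⟩ := hG1 p
  exact hi.trans (hsub i)

/-- **Finitude near the closure of the diffeomorphisms of finite order.** -/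
theorem closure_finite_order {r : ℕ∞} (hr : 1 ≤ r) (F : DiffM n N r)
    (hF : F ∈ @closure _ (strongTop n N r) {F' : DiffM n N r | ContMDiff (𝓡 n) (𝓡 n) ∞ F' ∧
      ∃ q : ℕ, 1 ≤ q ∧ ∀ x, F'^[q] x = x})
    (U : Set (DiffM n N r)) (hU : IsOpen[strongTop n N r] U) (hFU : F ∈ U) :
    ∃ G ∈ U, (∃ P : Set N, P.Finite ∧ ∀ p, omegaLim G p ⊆ P) ∧
      ∀ (_ : MeasurableSpace N) (μ : Measure N), FiniteAttractors μ G := by
  let := strongTop n N r
  obtain ⟨F', hF'U, h1, q, hq, h2⟩ := mem_closure_iff.1 hF U hU hFU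
  exact finite_order hr F' h1 hq h2 U hU hF'U

end Pool.Agent.V8H61.PM
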