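import Mathlib

set_option autoImplicit false

/-!
# A parametric transversality lemma
-/

namespace Pool.Agent.V8H61.PM

open MeasureTheory Set Filter Topology Metric Module

theorem finite_bad {P : Type*} [NormedAddCommGroup P] [NormedSpace ℝ P] [FiniteDimensional ℝ P]
    (F Q : P →L[ℝ] P) (hQ : IsUnit Q) : {t : ℝ | ¬ IsUnit (F + t • Q)}.Finite := by
  obtain ⟨q, rfl⟩ := hQ
  set G : P →L[ℝ] P := ((q⁻¹ : (P →L[ℝ] P)ˣ) : P →L[ℝ] P) * F with hG
  have hfin := Module.End.finite_hasEigenvalue (f := (G : P →ₗ[ℝ] P))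
  have hsub : {t : ℝ | ¬ IsUnit (F + t • (q : P →L[ℝ] P))} ⊆
      Neg.neg ⁻¹' {t : ℝ | (Module.End.HasEigenvalue (G : P →ₗ[ℝ] P) t)} := by
    intro t ht
    have e : F + t • (q : P →L[ℝ] P) = (q : P →L[ℝ] P) * (G + t • 1) := by
      rw [hG, mul_add, ← mul_assoc, Units.mul_inv, one_mul, mul_smul_comm, mul_one]
    have h1 : ¬ IsUnit (G + t • (1 : P →L[ℝ] P)) := by
      intro h
      apply ht
      show IsUnit _
      rw [e]
      exact q.isUnit.mul h
    -- not injective
    have h2 : ∃ v : P, v ≠ 0 ∧ (G + t • (1 : P →L[ℝ] P)) v = 0 := by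
      by_contra hcon
      push Not at hcon
      apply h1
      have hinj : Function.Injective ((G + t • (1 : P →L[ℝ] P) : P →L[ℝ] P) : P →ₗ[ℝ] P) := by
        rw [← LinearMap.ker_eq_bot, LinearMap.ker_eq_bot']
        intro v hv
        by_contra hv0
        exact hcon v hv0 hv
      have hbij := LinearMap.injective_iff_surjective.1 hinj
      have hu : IsUnit ((G + t • (1 : P →L[ℝ] P) : P →L[ℝ] P) : P →ₗ[ℝ] P) :=
        (Module.End.isUnit_iff _).2 ⟨hinj, hbij⟩
      have := hu.map (Module.End.toContinuousLinearMap (𝕜 := ℝ) P)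
      exact this
    obtain ⟨v, hv0, hv⟩ := h2
    show Module.End.HasEigenvalue (G : P →ₗ[ℝ] P) (-t)
    apply Module.End.hasEigenvalue_of_hasEigenvector (x := v)
    rw [Module.End.hasEigenvector_iff, Module.End.mem_eigenspace_iff]
    refine ⟨?_, hv0⟩
    have h3 : G v + t • v = 0 := hv
    show G v = -t • v
    rw [neg_smul]
    exact eq_neg_of_add_eq_zero_left h3
  exact (hfin.preimage (neg_injective.injOn)).subset hsub

variable {P0 C D P : Type*} [NormedAddCommGroup P0] [NormedSpace ℝ P0] [FiniteDimensional ℝ P0]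
  [NormedAddCommGroup C] [NormedSpace ℝ C] [FiniteDimensional ℝ C]
  [NormedAddCommGroup D] [NormedSpace ℝ D] [FiniteDimensional ℝ D]
  [NormedAddCommGroup P] [NormedSpace ℝ P] [FiniteDimensional ℝ P]
  [MeasurableSpace C] [BorelSpace C]

theorem abs_gen (μ : Measure C) [μ.IsAddHaarMeasure] (hdim : finrank ℝ D = finrank ℝ P0)
    {r : ℝ} (hr : 0 < r) {a : P0 → C →L[ℝ] D} (ha : DifferentiableOn ℝ a (ball 0 r))
    (hsurj : Function.Surjective (a 0)) {α : P0 → D} (hα : DifferentiableOn ℝ α (ball 0 r))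
    {β : P0 → P →L[ℝ] P} (hβ : ContinuousOn β (ball 0 r))
    {b : P0 → C →L[ℝ] (P →L[ℝ] P)} (hb : ContinuousOn b (ball 0 r)) {cs : C}
    (h1 : a 0 cs = 0) (h2 : IsUnit (b 0 cs)) :
    ∃ r', 0 < r' ∧ r' ≤ r ∧ ∀ᵐ c ∂μ, ∀ u ∈ ball (0 : P0) r', α u + a u c = 0 →
      IsUnit (β u + b u c) := by
  classical
  have : CompleteSpace D := FiniteDimensional.complete ℝ D
  have : CompleteSpace P := FiniteDimensional.complete ℝ P
  obtain ⟨R, hR⟩ := ContinuousLinearMap.exists_rightInverse_of_surjective (a 0)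
    (LinearMap.range_eq_top.2 hsurj)
  have h0 : (0 : P0) ∈ ball (0 : P0) r := mem_ball_self hr
  set A : P0 → D →L[ℝ] D := fun u => (a u).comp R with hA
  have hA0 : A 0 = 1 := hR
  have hAd : DifferentiableOn ℝ A (ball 0 r) := fun u hu =>
    ((ha u hu).clm_comp (differentiableWithinAt_const R))
  have hAc : ContinuousAt A 0 := (hAd.differentiableAt (ball_mem_nhds _ hr)).continuousAt
  have hU1 : ∀ᶠ u in 𝓝 (0 : P0), IsUnit (A u) := by
    apply hAc.eventually
    exact Units.isOpen.mem_nhds (by rw [hA0]; exact isUnit_one)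
  set inv : P0 → D →L[ℝ] D := fun u => Ring.inverse (A u) with hinv
  have hinv0 : inv 0 = 1 := by rw [hinv]; simp only [hA0, Ring.inverse_one]
  have hinvc : ContinuousAt inv 0 := by
    have : ContinuousAt (Ring.inverse : (D →L[ℝ] D) → (D →L[ℝ] D)) (A 0) := by
      rw [hA0]
      exact NormedRing.inverse_continuousAt (1 : (D →L[ℝ] D)ˣ)
    exact this.comp hAc
  set cu : P0 → C := fun u => cs - R (inv u (a u cs)) with hcu
  have hac : ContinuousAt a 0 := (ha.differentiableAt (ball_mem_nhds _ hr)).continuousAt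
  have hcuc : ContinuousAt cu 0 := by
    have h3 : ContinuousAt (fun u => a u cs) 0 := hac.clm_apply continuousAt_const
    have h4 : ContinuousAt (fun u => inv u (a u cs)) 0 := hinvc.clm_apply h3
    exact continuousAt_const.sub (R.continuous.continuousAt.comp h4)
  have hcu0 : cu 0 = cs := by rw [hcu]; simp only [h1, map_zero, sub_zero]
  have hbc : ContinuousAt b 0 := (hb 0 h0).continuousAt (ball_mem_nhds _ hr)
  have hU2 : ∀ᶠ u in 𝓝 (0 : P0), IsUnit (b u (cu u)) := by
    have h3 : ContinuousAt (fun u => b u (cu u)) 0 := hbc.clm_apply hcuc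
    apply h3.eventually
    exact Units.isOpen.mem_nhds (by show IsUnit (b 0 (cu 0)); rw [hcu0]; exact h2)
  obtain ⟨r1, hr1, hr1'⟩ := Metric.eventually_nhds_iff_ball.1 (hU1.and hU2)
  refine ⟨min r r1, lt_min hr hr1, min_le_left _ _, ?_⟩
  set r' := min r r1 with hr'
  have hsub : ball (0 : P0) r' ⊆ ball 0 r := ball_subset_ball (min_le_left _ _)
  have hunit : ∀ u ∈ ball (0 : P0) r', IsUnit (A u) ∧ IsUnit (b u (cu u)) := fun u hu =>
    hr1' u (ball_subset_ball (min_le_right _ _) hu)
  -- the model of the parameter space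
  set K := LinearMap.ker (a 0 : C →ₗ[ℝ] D) with hK
  have hfr : finrank ℝ C = finrank ℝ (P0 × K) := by
    have h3 := LinearMap.finrank_range_add_finrank_ker (a 0 : C →ₗ[ℝ] D)
    rw [LinearMap.range_eq_top.2 hsurj, finrank_top] at h3
    rw [Module.finrank_prod, ← hdim, h3]
  set e : C ≃L[ℝ] (P0 × K) := ContinuousLinearEquiv.ofFinrankEq hfr with he
  letI : MeasurableSpace (P0 × K) := borel _
  have : BorelSpace (P0 × K) := ⟨rfl⟩
  set ν : Measure (P0 × K) := Measure.addHaar with hν
  set U : Set (P0 × K) := {p | p.1 ∈ ball (0 : P0) r'} with hUdef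
  have hUo : IsOpen U := isOpen_ball.preimage continuous_fst
  set Φ : P0 × K → C := fun p => (p.2 : C) - R (inv p.1 (α p.1 + a p.1 p.2)) with hΦ
  have hinvd : ∀ u ∈ ball (0 : P0) r', DifferentiableAt ℝ inv u := by
    intro u hu
    have h3 : DifferentiableAt ℝ A u := hAd.differentiableAt (isOpen_ball.mem_nhds (hsub hu))
    exact (differentiableAt_inverse (hunit u hu).1).comp u h3
  have hΦd : ∀ p ∈ U, DifferentiableAt ℝ Φ p := by
    intro p hp
    have hp1 : p.1 ∈ ball (0 : P0) r' := hp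
    have hf : DifferentiableAt ℝ (fun p : P0 × K => p.1) p := differentiableAt_fst
    have hs : DifferentiableAt ℝ (fun p : P0 × K => (p.2 : C)) p :=
      (K.subtypeL.differentiableAt).comp p differentiableAt_snd
    have d1 : DifferentiableAt ℝ (fun p : P0 × K => inv p.1) p :=
      DifferentiableAt.comp (f := fun p : P0 × K => p.1) p (hinvd p.1 hp1) hf
    have d2 : DifferentiableAt ℝ (fun p : P0 × K => α p.1) p :=
      DifferentiableAt.comp (f := fun p : P0 × K => p.1) p
        (hα.differentiableAt (isOpen_ball.mem_nhds (hsub hp1))) hf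
    have d3 : DifferentiableAt ℝ (fun p : P0 × K => a p.1) p :=
      DifferentiableAt.comp (f := fun p : P0 × K => p.1) p
        (ha.differentiableAt (isOpen_ball.mem_nhds (hsub hp1))) hf
    exact hs.sub (R.differentiableAt.comp p (d1.clm_apply (d2.add (d3.clm_apply hs))))
  set F : P0 × K → P →L[ℝ] P := fun p => β p.1 + b p.1 (Φ p) with hF
  have hFc : ContinuousOn F U := by
    intro p hp
    have hp1 : p.1 ∈ ball (0 : P0) r' := hp
    have c1 : ContinuousAt (fun p : P0 × K => β p.1) p :=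
      ContinuousAt.comp (f := fun p : P0 × K => p.1)
        ((hβ _ (hsub hp1)).continuousAt (isOpen_ball.mem_nhds (hsub hp1))) continuousAt_fst
    have c2 : ContinuousAt (fun p : P0 × K => b p.1) p :=
      ContinuousAt.comp (f := fun p : P0 × K => p.1)
        ((hb _ (hsub hp1)).continuousAt (isOpen_ball.mem_nhds (hsub hp1))) continuousAt_fst
    exact (c1.add (c2.clm_apply (hΦd p hp).continuousAt)).continuousWithinAt
  set Z : Set (P0 × K) := U \ (U ∩ F ⁻¹' {x | IsUnit x}) with hZ
  have hZm : MeasurableSet Z := hUo.measurableSet.diff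
    (hFc.isOpen_inter_preimage hUo Units.isOpen).measurableSet
  have hZ0 : ν Z = 0 := by
    have hcs : cs ∈ K := h1
    set ℓ : ℝ →ₗ[ℝ] (P0 × K) := LinearMap.toSpanSingleton ℝ _ ((0 : P0), (⟨cs, hcs⟩ : K)) with hℓ
    have h3 : ∀ᵐ p ∂ν, p ∈ Zᶜ := by
      apply ae_mem_of_ae_add_linearMap_mem ℓ volume ν hZm.compl
      intro y
      have e1 : ∀ t : ℝ, y + ℓ t = (y.1, y.2 + t • (⟨cs, hcs⟩ : K)) := by
        intro t
        rw [hℓ, LinearMap.toSpanSingleton_apply]
        ext <;> simp
      by_cases hy : y.1 ∈ ball (0 : P0) r'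
      · have e2 : ∀ t : ℝ, F (y + ℓ t) = F y + t • b y.1 (cu y.1) := by
          intro t
          rw [e1, hF, hΦ, hcu]
          simp only [Submodule.coe_add, Submodule.coe_smul, map_add, map_smul, map_sub, smul_sub]
          abel
        have hfin := finite_bad (F y) (b y.1 (cu y.1)) (hunit _ hy).2
        have h4 : ∀ᵐ t : ℝ, t ∉ {t : ℝ | ¬ IsUnit (F y + t • b y.1 (cu y.1))} :=
          measure_eq_zero_iff_ae_notMem.1 (hfin.measure_zero volume)
        filter_upwards [h4] with t ht
        replace ht := not_not.1 ht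
        intro hmem
        apply hmem.2
        refine ⟨hmem.1, ?_⟩
        show IsUnit (F (y + ℓ t))
        rw [e2]
        exact ht
      · refine Filter.Eventually.of_forall fun t hmem => hy ?_
        have := hmem.1
        rw [e1] at this
        exact this
    exact measure_eq_zero_iff_ae_notMem.2 h3
  -- the image
  have hΦe : DifferentiableOn ℝ (fun p => e (Φ p)) Z := fun p hp =>
    (e.differentiableAt.comp p (hΦd p hp.1)).differentiableWithinAt
  have him : ν ((fun p => e (Φ p)) '' Z) = 0 :=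
    addHaar_image_eq_zero_of_differentiableOn_of_addHaar_eq_zero ν hΦe hZ0
  have hac2 : μ.map e ≪ ν := Measure.absolutelyContinuous_isAddHaarMeasure _ _
  have h5 : (μ.map e) ((fun p => e (Φ p)) '' Z) = 0 := hac2 him
  have h6 : μ (e ⁻¹' ((fun p => e (Φ p)) '' Z)) = 0 := by
    have hme : Measurable e := e.continuous.measurable
    exact nonpos_iff_eq_zero.1 (le_trans (Measure.le_map_apply hme.aemeasurable _) (le_of_eq h5))
  rw [measure_eq_zero_iff_ae_notMem] at h6
  filter_upwards [h6] with c hc u hu hcrit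
  by_contra hnu
  apply hc
  -- `c = Φ (u, κ)`
  set κ : C := c - R (a 0 c) with hκ
  have hκK : κ ∈ K := by
    show a 0 (c - R (a 0 c)) = 0
    rw [map_sub]
    have : a 0 (R (a 0 c)) = a 0 c := by
      have := congrArg (fun T => T (a 0 c)) hR
      exact this
    rw [this, sub_self]
  have hΦc : Φ (u, ⟨κ, hκK⟩) = c := by
    rw [hΦ]
    simp only
    have e3 : α u + a u κ = -(A u (a 0 c)) := by
      rw [hκ, map_sub]
      have : a u (R (a 0 c)) = A u (a 0 c) := rfl
      rw [this]
      have := hcrit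
      rw [← add_sub_assoc, this, zero_sub]
    have hiu := (hunit u hu).1
    have e4 : inv u (A u (a 0 c)) = a 0 c := by
      have h7 : Ring.inverse (A u) * A u = 1 := Ring.inverse_mul_cancel _ hiu
      have := congrArg (fun T => T (a 0 c)) h7
      exact this
    rw [e3, map_neg, map_neg, sub_neg_eq_add, e4, hκ, sub_add_cancel]
  refine ⟨(u, ⟨κ, hκK⟩), ⟨hu, fun h8 => hnu ?_⟩, ?_⟩
  · have h9 : IsUnit (F (u, ⟨κ, hκK⟩)) := h8.2
    rw [hF] at h9
    simp only [hΦc] at h9
    exact h9
  · show e (Φ _) = e c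
    rw [hΦc]

end Pool.Agent.V8H61.PM
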