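import Pool.Agent.V8H61.PM.Crit

set_option autoImplicit false
set_option linter.unusedSectionVars false

/-!
# Local linearization of maps of finite order
-/

namespace Pool.Agent.V8H61.PM

open Set Filter Topology Metric Module Function
open scoped ContDiff

variable {P : Type*} [NormedAddCommGroup P] [NormedSpace ℝ P] [FiniteDimensional ℝ P]

/-- `Θ = ∑_{k < q} L^(q-1-k) τ^k` -/
noncomputable def Th (L : P →L[ℝ] P) (τ : P → P) (q : ℕ) (v : P) : P :=
  ∑ k ∈ Finset.range q, (L ^ (q - 1 - k)) (τ^[k] v)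

theorem Th_comm (L : P →L[ℝ] P) (τ : P → P) {q : ℕ} (hq : 1 ≤ q) (v : P) :
    Th L τ q (τ v) + (L ^ q) v = L (Th L τ q v) + τ^[q] v := by
  obtain ⟨m, rfl⟩ : ∃ m, q = m + 1 := ⟨q - 1, by omega⟩
  unfold Th
  rw [map_sum, Finset.sum_range_succ, Finset.sum_range_succ' (fun k => L _)]
  have e1 : ∀ k ∈ Finset.range m, (L ^ (m + 1 - 1 - k)) (τ^[k] (τ v)) =
      L ((L ^ (m + 1 - 1 - (k + 1))) (τ^[k + 1] v)) := by
    intro k hk
    rw [Finset.mem_range] at hk
    rw [← iterate_succ_apply]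
    have : L ^ (m + 1 - 1 - k) = L * L ^ (m + 1 - 1 - (k + 1)) := by
      rw [← pow_succ']
      congr 1
      omega
    rw [this]
    rfl
  rw [Finset.sum_congr rfl e1]
  have e2 : (L ^ (m + 1 - 1 - m)) (τ^[m] (τ v)) = τ^[m + 1] v := by
    rw [show m + 1 - 1 - m = 0 by omega, pow_zero, ← iterate_succ_apply]
    rfl
  have e3 : L ((L ^ (m + 1 - 1 - 0)) (τ^[0] v)) = (L ^ (m + 1)) v := by
    rw [pow_succ']
    rfl
  rw [e2, e3]
  abel

/-- Linearization of a map of finite order near a fixed point. -/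
theorem linearize {τ : P → P} (hτ : ContDiffAt ℝ 3 τ 0) (h0 : τ 0 = 0) {q : ℕ} (hq : 1 ≤ q)
    (hper : ∀ᶠ v in 𝓝 0, τ^[q] v = v) :
    ∃ (L : P →L[ℝ] P) (Θ σ : P → P), Θ 0 = 0 ∧ σ 0 = 0 ∧ ContDiffAt ℝ 3 Θ 0 ∧ ContDiffAt ℝ 3 σ 0 ∧
      (∀ᶠ v in 𝓝 0, Θ (σ v) = v) ∧ (∀ᶠ v in 𝓝 0, σ (Θ v) = v) ∧
      (∀ᶠ v in 𝓝 0, τ (σ v) = σ (L v)) ∧
      Injective (fderiv ℝ σ 0) := by
  set L := fderiv ℝ τ 0 with hL
  have hd : HasFDerivAt τ L 0 := (hτ.differentiableAt (by norm_num)).hasFDerivAt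
  have hit : ∀ k, HasFDerivAt τ^[k] (L ^ k) 0 := fun k => hd.iterate h0 k
  have hfix : ∀ k, τ^[k] 0 = 0 := fun k => iterate_fixed h0 k
  have hLq : L ^ q = 1 := by
    have h1 : τ^[q] =ᶠ[𝓝 0] id := hper
    have h2 : fderiv ℝ τ^[q] 0 = fderiv ℝ id 0 := h1.fderiv_eq
    rw [(hit q).fderiv, fderiv_id] at h2
    exact h2
  have hcd : ∀ k, ContDiffAt ℝ 3 τ^[k] 0 := by
    intro k
    induction k with
    | zero => exact contDiffAt_id
    | succ k ih =>
      rw [iterate_succ']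
      apply ContDiffAt.comp
      · rw [hfix]; exact hτ
      · exact ih
  have hΘcd : ContDiffAt ℝ 3 (Th L τ q) 0 := by
    unfold Th
    refine ContDiffAt.sum ?_
    intro k _
    exact (L ^ (q - 1 - k)).contDiff.contDiffAt.comp 0 (hcd k)
  have hΘd : HasFDerivAt (Th L τ q) ((q : ℝ) • L ^ (q - 1)) 0 := by
    have h1 : HasFDerivAt (Th L τ q) (∑ k ∈ Finset.range q, (L ^ (q - 1 - k)).comp (L ^ k)) 0 := by
      unfold Th
      apply HasFDerivAt.fun_sum
      intro k _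
      exact (L ^ (q - 1 - k)).hasFDerivAt.comp 0 (hit k)
    have h2 : ∀ k ∈ Finset.range q, (L ^ (q - 1 - k)).comp (L ^ k) = L ^ (q - 1) := by
      intro k hk
      rw [Finset.mem_range] at hk
      have : L ^ (q - 1 - k) * L ^ k = L ^ (q - 1) := by
        rw [← pow_add]; congr 1; omega
      exact this
    rw [Finset.sum_congr rfl h2, Finset.sum_const, Finset.card_range, ← Nat.cast_smul_eq_nsmul ℝ]
      at h1
    exact h1
  have hΘ0 : Th L τ q 0 = 0 := by
    unfold Th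
    apply Finset.sum_eq_zero
    intro k _
    rw [hfix, map_zero]
  have hq0 : (q : ℝ) ≠ 0 := by positivity
  -- the inverse of the derivative
  have hinv1 : ((q : ℝ) • L ^ (q - 1)) * ((q : ℝ)⁻¹ • L) = 1 := by
    rw [smul_mul_smul_comm, mul_inv_cancel₀ hq0, one_smul, ← pow_succ, Nat.sub_add_cancel hq, hLq]
  have hinv2 : ((q : ℝ)⁻¹ • L) * ((q : ℝ) • L ^ (q - 1)) = 1 := by
    rw [smul_mul_smul_comm, inv_mul_cancel₀ hq0, one_smul, ← pow_succ', Nat.sub_add_cancel hq, hLq]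
  set D : P ≃L[ℝ] P := ContinuousLinearEquiv.equivOfInverse ((q : ℝ) • L ^ (q - 1))
    ((q : ℝ)⁻¹ • L) (fun v => congrArg (fun T : P →L[ℝ] P => T v) hinv2)
    (fun v => congrArg (fun T : P →L[ℝ] P => T v) hinv1) with hD
  have hΘD : HasFDerivAt (Th L τ q) (D : P →L[ℝ] P) 0 := hΘd
  have h3 : (3 : WithTop ℕ∞) ≠ 0 := by norm_num
  have : CompleteSpace P := FiniteDimensional.complete ℝ P
  have hst := hΘcd.hasStrictFDerivAt' hΘD h3
  set σ := hΘcd.localInverse hΘD h3 with hσ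
  have hσ0 : σ 0 = 0 := by
    have := hΘcd.localInverse_apply_image hΘD h3
    rw [hΘ0] at this
    exact this
  have hσcd : ContDiffAt ℝ 3 σ 0 := by
    have := hΘcd.to_localInverse hΘD h3
    rw [hΘ0] at this
    exact this
  have hr : ∀ᶠ v in 𝓝 0, Th L τ q (σ v) = v := by
    have := hst.eventually_right_inverse
    rw [hΘ0] at this
    exact this
  have hl : ∀ᶠ v in 𝓝 0, σ (Th L τ q v) = v := hst.eventually_left_inverse
  have hσc : ContinuousAt σ 0 := hσcd.continuousAt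
  have hτc : ContinuousAt τ 0 := hτ.continuousAt
  refine ⟨L, Th L τ q, σ, hΘ0, hσ0, hΘcd, hσcd, hr, hl, ?_, ?_⟩
  · have h1 : ∀ᶠ v in 𝓝 0, τ^[q] (σ v) = σ v := by
      have : Tendsto σ (𝓝 0) (𝓝 0) := by
        have := hσc.tendsto
        rwa [hσ0] at this
      exact this.eventually hper
    have h2 : ∀ᶠ v in 𝓝 0, σ (Th L τ q (τ (σ v))) = τ (σ v) := by
      have h4 : Tendsto (fun v => τ (σ v)) (𝓝 0) (𝓝 0) := by
        have h5 : ContinuousAt (fun v => τ (σ v)) 0 := by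
          apply ContinuousAt.comp (g := τ)
          · rw [hσ0]; exact hτc
          · exact hσc
        have := h5.tendsto
        simp only [hσ0, h0] at this
        exact this
      exact h4.eventually hl
    filter_upwards [h1, h2, hr] with v e1 e2 e3
    have h5 := Th_comm L τ hq (σ v)
    rw [e1, hLq, e3] at h5
    have h6 : Th L τ q (τ (σ v)) = L v := by
      have h7 : Th L τ q (τ (σ v)) + σ v = L v + σ v := h5
      exact add_right_cancel h7
    rw [← e2, h6]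
  · have h4 : HasFDerivAt (fun v => Th L τ q (σ v)) ((D : P →L[ℝ] P).comp (fderiv ℝ σ 0)) 0 := by
      have h5 : HasFDerivAt (Th L τ q) (D : P →L[ℝ] P) (σ 0) := by rw [hσ0]; exact hΘD
      exact h5.comp 0 (hσcd.differentiableAt (by norm_num)).hasFDerivAt
    have h5 : (fun v => Th L τ q (σ v)) =ᶠ[𝓝 0] id := hr
    have h6 : (D : P →L[ℝ] P).comp (fderiv ℝ σ 0) = ContinuousLinearMap.id ℝ P := by
      rw [← h4.fderiv, h5.fderiv_eq, fderiv_id]
    intro v w hvw
    have h7 : D (fderiv ℝ σ 0 v) = v := congrArg (fun T : P →L[ℝ] P => T v) h6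
    have h8 : D (fderiv ℝ σ 0 w) = w := congrArg (fun T : P →L[ℝ] P => T w) h6
    rw [← h7, ← h8, hvw]

end Pool.Agent.V8H61.PM
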