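import Pool.Agent.V8H61.PM.Fin
import Pool.Agent.N15.AS.Main
import Pool.Agent.N15.AS.Fou

set_option autoImplicit false
set_option linter.unusedSectionVars false

/-!
# Finitude near the diffeomorphisms of finite order modulo a torus action
-/

open scoped Manifold ContDiff Topology
open Set Filter Metric MeasureTheory Function

universe u

namespace Pool.Agent.V8H61.PM

open Pool.Agent.H718R2.G Pool.Agent.Y318.MN Pool.Agent.N15.AS

open Pool.Agent.H728R2.FA (omegaLim FiniteAttractors)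

/-- The orbits of a map of finite order in a finite invariant set. -/
theorem orbit_partition {B : Type u} {ρ : B → B} {q : ℕ} (hq : 1 ≤ q) (hper : ∀ x, ρ^[q] x = x)
    {K : Set B} (hK : K.Finite) (hKρ : ∀ x ∈ K, ∀ k : ℕ, ρ^[k] x ∈ K) :
    ∃ (m : ℕ) (M : Fin m → Set B), (∀ i, ∃ x ∈ K, M i = range fun k : ℕ => ρ^[k] x) ∧
      (∀ i, M i ⊆ K) ∧ (∀ i j, i ≠ j → Disjoint (M i) (M j)) ∧ K ⊆ (⋃ i, M i) ∧
      (∀ i x, ρ x ∈ M i ↔ x ∈ M i) := by
  classical
  set O : B → Set B := fun x => range fun k : ℕ => ρ^[k] x with hO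
  have hself : ∀ x, x ∈ O x := fun x => ⟨0, rfl⟩
  have hpl : ∀ x, ∀ l : ℕ, ρ^[q * l] x = x := by
    intro x l
    induction l with
    | zero => rfl
    | succ l ih => rw [Nat.mul_succ, iterate_add_apply, hper, ih]
  have hback : ∀ x, ∀ y ∈ O x, x ∈ O y := by
    rintro x _ ⟨k, rfl⟩
    refine ⟨q * k - k, ?_⟩
    show ρ^[q * k - k] (ρ^[k] x) = x
    rw [← iterate_add_apply, Nat.sub_add_cancel (Nat.le_mul_of_pos_left k hq)]
    exact hpl x k
  have htrans : ∀ x, ∀ y ∈ O x, O y ⊆ O x := by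
    rintro x _ ⟨k, rfl⟩ _ ⟨j, rfl⟩
    refine ⟨j + k, ?_⟩
    show ρ^[j + k] x = ρ^[j] (ρ^[k] x)
    rw [iterate_add_apply]
  have heq : ∀ x, ∀ y ∈ O x, O y = O x := fun x y hy =>
    (htrans x y hy).antisymm (htrans y x (hback x y hy))
  have hSfin : (O '' K).Finite := hK.image O
  set e := hSfin.toFinset.equivFin with he
  have hmem : ∀ i, ∃ x ∈ K, O x = (e.symm i : Set B) := fun i =>
    hSfin.mem_toFinset.1 (e.symm i).2
  have hsub : ∀ i, (e.symm i : Set B) ⊆ K := by
    intro i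
    obtain ⟨x, hx, h1⟩ := hmem i
    rw [← h1]
    rintro _ ⟨k, rfl⟩
    exact hKρ x hx k
  refine ⟨_, fun i => (e.symm i : Set B), fun i => ?_, hsub, ?_, ?_, ?_⟩
  · obtain ⟨x, hx, h1⟩ := hmem i
    exact ⟨x, hx, h1.symm⟩
  · intro i j hij
    obtain ⟨x, hx, h1⟩ := hmem i
    obtain ⟨y, hy, h2⟩ := hmem j
    rw [Set.disjoint_iff]
    rintro z ⟨hz1, hz2⟩
    apply hij
    apply e.symm.injective
    apply Subtype.ext
    change z ∈ (e.symm i : Set B) at hz1
    change z ∈ (e.symm j : Set B) at hz2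
    rw [← h1] at hz1 ⊢
    rw [← h2] at hz2 ⊢
    rw [← heq x z hz1, ← heq y z hz2]
  · intro x hx
    have h1 : O x ∈ hSfin.toFinset := hSfin.mem_toFinset.2 ⟨x, hx, rfl⟩
    rw [mem_iUnion]
    refine ⟨e ⟨O x, h1⟩, ?_⟩
    rw [e.symm_apply_apply]
    exact hself x
  · intro i x
    obtain ⟨y, hy, h1⟩ := hmem i
    show ρ x ∈ (e.symm i : Set B) ↔ x ∈ (e.symm i : Set B)
    rw [← h1]
    have h2 : ρ x ∈ O x := ⟨1, rfl⟩
    constructor
    · intro h
      rw [← heq y _ h]
      exact hback x _ h2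
    · intro h
      rw [← heq y _ h]
      exact h2

/-- The differential of `π : N → B` at `y`. -/
noncomputable def dif (n d : ℕ) {N B : Type u} [TopologicalSpace N] [ChartedSpace (V n) N]
    [TopologicalSpace B] [ChartedSpace (V d) B] (π : N → B) (y : N) : V n →L[ℝ] V d :=
  mfderiv (𝓡 n) (𝓡 d) π y

/-- The orbits of the smooth action `R` of the torus `ℝ^k / ℤ^k` on `N` are the fibres of the smooth
submersion `π` of `N` into `B`. -/
structure Bundle (n d k : ℕ) {N B : Type u} [TopologicalSpace N] [ChartedSpace (V n) N]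
    [TopologicalSpace B] [ChartedSpace (V d) B] (R : V k → N → N) (π : N → B) : Prop where
  act : TorusAct k n N R
  smooth : ContMDiff (𝓡 n) (𝓡 d) ∞ π
  subm : ∀ y, Surjective (dif n d π y)
  orbits : ∀ y z, π y = π z ↔ ∃ X, z = R X y

/-- The map `F` normalizes the torus action `R`: `F R_X = R_{AX} F`, where `A ∈ GL(k, ℤ)` has no
eigenvalue which is a root of unity other than `1`. -/
structure Normalizes {k : ℕ} {N : Type u} (F : N → N) (R : V k → N → N)
    (A : Matrix (Fin k) (Fin k) ℤ) : Prop where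
  unit : IsUnit A.det
  chars : PerCharsFixed A
  comm : ∀ X y, F (R X y) = R (lin A X) (F y)

/-- `ρ` is smooth and of finite order. -/
structure FinOrd (d : ℕ) {B : Type u} [TopologicalSpace B] [ChartedSpace (V d) B]
    (ρ : B → B) : Prop where
  smooth : ContMDiff (𝓡 d) (𝓡 d) ∞ ρ
  order : ∃ q : ℕ, 1 ≤ q ∧ ∀ b, ρ^[q] b = b

/-- The orbits of a torus action `R` are the fibres of `π : N → B`, the map `F` normalizes the
action, and the map induced by `F` on the base is smooth and of finite order. -/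
structure FibreData (n d k : ℕ) {N B : Type u} [TopologicalSpace N] [ChartedSpace (V n) N]
    [TopologicalSpace B] [ChartedSpace (V d) B] (F : N → N) (R : V k → N → N)
    (π : N → B) : Prop where
  bundle : Bundle n d k R π
  normal : ∃ A : Matrix (Fin k) (Fin k) ℤ, Normalizes F R A
  base : ∃ ρ : B → B, FinOrd d ρ ∧ ∀ y, π (F y) = ρ (π y)

/-- `B` is a closed manifold over which `F` is of finite order modulo a torus action. -/
def OverBase (n d : ℕ) {N : Type u} [TopologicalSpace N] [ChartedSpace (V n) N] (F : N → N)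
    (B : Type u) [TopologicalSpace B] [ChartedSpace (V d) B] : Prop :=
  T2Space B ∧ CompactSpace B ∧ IsManifold (𝓡 d) ∞ B ∧
    ∃ (k : ℕ) (R : V k → N → N) (π : N → B), FibreData n d k F R π

/-- `F` is of finite order modulo a torus action with the orbits as fibres over a closed
manifold. -/
def FiniteOrderMod (n : ℕ) {N : Type u} [TopologicalSpace N] [ChartedSpace (V n) N]
    (F : N → N) : Prop :=
  ∃ (d : ℕ) (B : Type u) (_ : TopologicalSpace B) (_ : ChartedSpace (V d) B), OverBase n d F B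

variable {n : ℕ} {N : Type u} [TopologicalSpace N] [T2Space N] [CompactSpace N]
  [ChartedSpace (V n) N] [IsManifold (𝓡 n) ∞ N]

/-- The smooth maps of finite order are of this kind, with the trivial torus. -/
theorem finiteOrderMod_of_finite {F : N → N} (hF : ContMDiff (𝓡 n) (𝓡 n) ∞ F) {q : ℕ} (hq : 1 ≤ q)
    (hper : ∀ x, F^[q] x = x) : FiniteOrderMod n F := by
  refine ⟨n, N, inferInstance, inferInstance, inferInstance, inferInstance, inferInstance,
    0, fun _ y => y, id, ⟨⟨⟨contMDiff_snd, fun _ => rfl, fun _ _ _ => rfl, fun _ _ _ => rfl⟩,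
    contMDiff_id, fun y => ?_, fun y z => ?_⟩, ⟨1, ⟨by simp, fun m p _ _ => by simp,
    fun _ _ => rfl⟩⟩, ⟨F, ⟨hF, ⟨q, hq, hper⟩⟩, fun _ => rfl⟩⟩⟩
  · show Surjective (mfderiv (𝓡 n) (𝓡 n) (id : N → N) y)
    rw [mfderiv_id]
    exact fun v => ⟨v, rfl⟩
  · constructor
    · intro h
      exact ⟨0, h.symm⟩
    · rintro ⟨_, h⟩
      exact h.symm

theorem crit_comp {d : ℕ} {B : Type u} [TopologicalSpace B] [ChartedSpace (V d) B]
    [IsManifold (𝓡 d) ∞ B] {π : N → B} (hπ : ContMDiff (𝓡 n) (𝓡 d) ∞ π)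
    (hsub : ∀ y, Surjective (dif n d π y)) {h : B → ℝ}
    (hh : ContMDiff (𝓡 d) 𝓘(ℝ, ℝ) ∞ h) (y : N) :
    IsCrit n (fun z => h (π z)) y ↔ IsCrit d h (π y) := by
  have h1 : MDifferentiableAt (𝓡 n) (𝓡 d) π y := hπ.mdifferentiableAt (by simp)
  have h2 : MDifferentiableAt (𝓡 d) 𝓘(ℝ, ℝ) h (π y) := hh.mdifferentiableAt (by simp)
  have h3 : mfderiv (𝓡 n) 𝓘(ℝ, ℝ) (fun z => h (π z)) y =
      (mfderiv (𝓡 d) 𝓘(ℝ, ℝ) h (π y)).comp (mfderiv (𝓡 n) (𝓡 d) π y) :=
    mfderiv_comp y h2 h1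
  unfold IsCrit
  rw [h3]
  constructor
  · intro h4
    ext v
    obtain ⟨w, hw⟩ := hsub y v
    rw [← hw]
    exact congrArg (fun L : V n →L[ℝ] ℝ => L w) h4
  · intro h4
    rw [h4]
    rfl

/-- **Finitude near a diffeomorphism of finite order modulo a torus.** -/
theorem finite_order_mod {r : ℕ∞} (hr : 1 ≤ r) (F : DiffM n N r) (hF : FiniteOrderMod n F)
    (U : Set (DiffM n N r)) (hU : IsOpen[strongTop n N r] U) (hFU : F ∈ U) :
    ∃ G ∈ U, ∀ (_ : MeasurableSpace N) (μ : Measure N), FiniteAttractors μ G := by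
  obtain ⟨d, B, _, _, _, _, _, k, R, π, ⟨hD, ⟨A, hA⟩, ρ, ⟨hρ, ⟨q, hq, hper⟩⟩, hπF⟩⟩ := hF
  obtain ⟨h, hh, hinv, hfin⟩ := exists_inv_fun hρ hq hper
  have hiter : ∀ (y : N) (j : ℕ), π (F^[j] y) = ρ^[j] (π y) := by
    intro y j
    induction j with
    | zero => rfl
    | succ j ih => rw [iterate_succ_apply', hπF, ih, iterate_succ_apply']
  set K : Set B := {b | b ∈ range π ∧ ∀ j : ℕ, IsCrit d h (ρ^[j] b)} with hK
  have hKfin : K.Finite := hfin.subset fun b hb => hb.2 0
  have hKρ : ∀ b ∈ K, ∀ j : ℕ, ρ^[j] b ∈ K := by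
    rintro _ ⟨⟨y, rfl⟩, hb⟩ j
    refine ⟨⟨F^[j] y, hiter y j⟩, fun i => ?_⟩
    rw [← iterate_add_apply]
    exact hb (i + j)
  obtain ⟨m, M, hM1, hM2, hM3, hM4, hM5⟩ := orbit_partition hq hper hKfin hKρ
  have hcrit := fun y : N => crit_comp hD.smooth hD.subm hh y
  have hpc : Continuous π := hD.smooth.continuous
  obtain ⟨G, hGU, -, hG2⟩ := main2 (h := fun z => h (π z)) fou hr hD.act hA.unit hA.chars
    (hh.comp hD.smooth)
    (fun X y => by
      have : π (R X y) = π y := ((hD.orbits y (R X y)).2 ⟨X, rfl⟩).symm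
      simp only [this])
    (fun y => by
      show h (π y) ≤ h (π (F y))
      rw [hπF, hinv])
    (fun X y _ => hA.comm X y) (fun i => π ⁻¹' (M i))
    (fun i => by
      obtain ⟨b, hbK, hb⟩ := hM1 i
      obtain ⟨⟨y0, hy0⟩, -⟩ := hbK
      refine ⟨(hKfin.subset (hM2 i)).isClosed.preimage hpc, ?_, ?_, y0, ?_, ?_⟩
      · apply Subset.antisymm
        · rintro _ ⟨y, hy, rfl⟩
          show π (F y) ∈ M i
          rw [hπF]
          exact (hM5 i _).2 hy
        · intro y hy
          refine ⟨F.symm y, ?_, F.apply_symm_apply y⟩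
          show π (F.symm y) ∈ M i
          rw [← hM5 i, ← hπF, F.apply_symm_apply]
          exact hy
      · intro X y hy
        show π (R X y) ∈ M i
        have : π (R X y) = π y := ((hD.orbits y (R X y)).2 ⟨X, rfl⟩).symm
        rw [this]
        exact hy
      · show π y0 ∈ M i
        rw [hy0, hb]
        exact ⟨0, rfl⟩
      · intro y hy
        apply subset_closure
        have h1 : π y ∈ M i := hy
        rw [hb] at h1
        obtain ⟨j, hj⟩ := h1
        have h2 : π (F^[j] y0) = π y := by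
          rw [hiter, hy0]
          exact hj
        obtain ⟨X, hX⟩ := (hD.orbits _ _).1 h2
        exact ⟨j, X, hX⟩)
    (fun i j hij => (hM3 i j hij).preimage π)
    (fun i y hy => (hcrit y).2 ((hM2 i hy).2 0))
    (by
      intro y hy
      have h1 : π y ∈ K := by
        refine ⟨⟨y, rfl⟩, fun j => ?_⟩
        rw [← hiter, ← hcrit]
        exact (hy j).1
      have h2 := hM4 h1
      rw [mem_iUnion] at h2 ⊢
      exact h2) U hU hFU
  exact ⟨G, hGU, hG2⟩

/-- **Finitude near the closure of the diffeomorphisms of finite order modulo a torus.** -/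
theorem closure_finite_order_mod {r : ℕ∞} (hr : 1 ≤ r) (F : DiffM n N r)
    (hF : F ∈ @closure _ (strongTop n N r) {F' : DiffM n N r | FiniteOrderMod n F'})
    (U : Set (DiffM n N r)) (hU : IsOpen[strongTop n N r] U) (hFU : F ∈ U) :
    ∃ G ∈ U, ∀ (_ : MeasurableSpace N) (μ : Measure N), FiniteAttractors μ G := by
  let := strongTop n N r
  obtain ⟨F', hF'U, h1⟩ := mem_closure_iff.1 hF U hU hFU
  exact finite_order_mod hr F' h1 U hU hF'U

end Pool.Agent.V8H61.PM
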